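import Mathlib
import Pool.Agent.Helper227.SOne
import Pool.Agent.H561R3.Prim

set_option autoImplicit false

namespace Pool.Agent.H561R3.Om

open Encodable Pool.Agent.Helper227 Pool.Agent.H561R3

section defs

open Classical

abbrev Str := List Bool
abbrev IC := (ℕ × ℕ × ℕ) × (ℕ × ℕ × ℕ)

/-- the objects with a code below `s` -/
def cand (α : Type) [Primcodable α] (s : ℕ) : List α :=
  (List.range s).flatMap fun i => (decode (α := α) i).toList

theorem mem_cand {α : Type} [Primcodable α] {s : ℕ} {x : α} :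
    x ∈ cand α s ↔ ∃ i < s, decode (α := α) i = some x := by
  unfold cand
  simp [List.mem_flatMap]

theorem cand_mono {α : Type} [Primcodable α] {s t : ℕ} (h : s ≤ t) {x : α} (hx : x ∈ cand α s) :
    x ∈ cand α t := by
  rw [mem_cand] at hx ⊢
  obtain ⟨i, hi, h1⟩ := hx
  exact ⟨i, lt_of_lt_of_le hi h, h1⟩

theorem mem_cand_of_encode {α : Type} [Primcodable α] {s : ℕ} {x : α} (h : encode x < s) :
    x ∈ cand α s := mem_cand.2 ⟨encode x, h, by simp⟩

theorem pr_cand (α : Type) [Primcodable α] : Primrec (cand α) := by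
  unfold cand
  exact Primrec.list_flatMap Primrec.list_range
    (Primrec.optionToList.comp (Primrec.decode.comp Primrec.snd)).to₂

variable (qU : Str × Str → ℕ → Prop) (qW : Str → ℕ → Prop) (qV : ℕ × IC → ℕ → Prop)

/-- the program `p`, not extending `κ`, has halted by stage `s` -/
def bornP (κ : Str) (s : ℕ) (p : Str) : Prop :=
  p.length ≤ s ∧ ¬ (κ <+: p) ∧ ∃ x ∈ cand Str s, qU (p, x) s

/-- its output has left the set -/
def goneP (κ : Str) (s : ℕ) (p : Str) : Prop :=
  bornP qU κ s p ∧ ∃ x ∈ cand Str s, qU (p, x) s ∧ qW x s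

/-- numerator of the current mass of the set -/
noncomputable def nb (κ : Str) (s : ℕ) : ℕ :=
  ((upTo s).map (fun p => if bornP qU κ s p ∧ ¬ goneP qU qW κ s p then
    2 ^ (s - p.length) else 0)).sum

noncomputable def NN (κ : Str) (s e0 : ℕ) : ℕ := nb qU qW κ s * 2 ^ κ.length + e0

/-- the strategy may move by `r` -/
def Act (κ : Str) (s e0 c r : ℕ) : Prop :=
  ∃ t ∈ cand IC s, qV (c, t) s ∧
    t.1.1 * 2 ^ (s + κ.length) < NN qU qW κ s e0 * (t.1.2.2 + 1) + t.1.2.1 * 2 ^ (s + κ.length) ∧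
    (NN qU qW κ s e0 + r) * (t.2.2.2 + 1) + t.2.2.1 * 2 ^ (s + κ.length) ≤
      t.2.1 * 2 ^ (s + κ.length)

/-- the number of levels -/
def TT (κ : Str) : ℕ := 2 ^ (κ.length + 1)

def kk (κ : Str) : ℕ := κ.length + 3

/-- the initial state -/
def ini (κ : Str) : List (ℕ × ℕ) :=
  (List.range (TT κ + 1)).map (fun l => (if l = TT κ then 1 else 0, 0))

def gE (L : List (ℕ × ℕ)) (l : ℕ) : ℕ := (L.getD l (0, 0)).1
def gS (L : List (ℕ × ℕ)) (l : ℕ) : ℕ := (L.getD l (0, 0)).2

/-- the level to act (shifted by one) -/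
def lev (L : List (ℕ × ℕ)) : ℕ := L.findIdx (fun x => decide (gE L 0 < x.1))

/-- the amount -/
noncomputable def amt (κ : Str) (s : ℕ) (L : List (ℕ × ℕ)) : ℕ :=
  Nat.findGreatest (fun r => Act qU qW qV κ s (gE L 0) (gS L (lev L) + kk κ) r)
    (gE L (lev L) - gE L 0)

noncomputable def stepL (κ : Str) (s : ℕ) (L : List (ℕ × ℕ)) : List (ℕ × ℕ) :=
  (List.range L.length).map (fun l =>
    if amt qU qW qV κ s L = 0 then (2 * gE L l, gS L l)
    else (if l + 1 = lev L then 2 * (gE L 0 + amt qU qW qV κ s L) else 2 * gE L l,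
      if l < lev L then s else gS L l))

/-- the state at stage `s` -/
noncomputable def ST (κ : Str) (s : ℕ) : List (ℕ × ℕ) :=
  Nat.rec (ini κ) (fun s L => stepL qU qW qV κ s L) s

end defs

section prim

open Classical

variable {qU : Str × Str → ℕ → Prop} {qW : Str → ℕ → Prop} {qV : ℕ × IC → ℕ → Prop}

variable {α : Type} [Primcodable α]

theorem pr_isPre : PrimrecPred fun x : Str × Str => x.1 <+: x.2 := by
  have h : PrimrecPred fun x : Str × Str => x.2.take x.1.length = x.1 :=
    Primrec.eq.comp (Primrec.list_take.comp (Primrec.list_length.comp Primrec.fst) Primrec.snd)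
      Primrec.fst
  refine h.of_eq fun x => ?_
  rw [List.prefix_iff_eq_take]
  exact eq_comm

theorem pr_bornP (hU : PrimrecRel qU) :
    PrimrecPred fun x : (Str × ℕ) × Str => bornP qU x.1.1 x.1.2 x.2 := by
  unfold bornP
  refine PrimrecPred.and ?_ (PrimrecPred.and (PrimrecPred.not ?_) ?_)
  · exact Primrec.nat_le.comp (Primrec.list_length.comp Primrec.snd)
      (Primrec.snd.comp Primrec.fst)
  · exact pr_isPre.comp ((Primrec.fst.comp Primrec.fst).pair Primrec.snd)
  · refine PP.ex_mem (α := (Str × ℕ) × Str) (f := fun x => cand Str x.1.2)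
      (p := fun x y => qU (x.2, y) x.1.2) ?_ ((pr_cand Str).comp (Primrec.snd.comp Primrec.fst))
    exact hU.comp ((Primrec.snd.comp Primrec.fst).pair Primrec.snd)
      (Primrec.snd.comp (Primrec.fst.comp Primrec.fst))

theorem pr_goneP (hU : PrimrecRel qU) (hW : PrimrecRel qW) :
    PrimrecPred fun x : (Str × ℕ) × Str => goneP qU qW x.1.1 x.1.2 x.2 := by
  unfold goneP
  refine PrimrecPred.and (pr_bornP hU) ?_
  refine PP.ex_mem (α := (Str × ℕ) × Str) (f := fun x => cand Str x.1.2)
    (p := fun x y => qU (x.2, y) x.1.2 ∧ qW y x.1.2) ?_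
    ((pr_cand Str).comp (Primrec.snd.comp Primrec.fst))
  refine PrimrecPred.and ?_ ?_
  · exact hU.comp ((Primrec.snd.comp Primrec.fst).pair Primrec.snd)
      (Primrec.snd.comp (Primrec.fst.comp Primrec.fst))
  · exact hW.comp Primrec.snd (Primrec.snd.comp (Primrec.fst.comp Primrec.fst))

theorem pr_nb (hU : PrimrecRel qU) (hW : PrimrecRel qW) :
    Primrec fun x : Str × ℕ => nb qU qW x.1 x.2 := by
  unfold nb
  refine pr_sum (f := fun x : Str × ℕ => upTo x.2) (pr_upTo.comp Primrec.snd) ?_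
  refine Primrec.ite ?_ ?_ (Primrec.const 0)
  · exact PrimrecPred.and (pr_bornP hU) (PrimrecPred.not (pr_goneP hU hW))
  · exact pr_pow.comp (Primrec.const 2) (Primrec.nat_sub.comp (Primrec.snd.comp Primrec.fst)
      (Primrec.list_length.comp Primrec.snd))

theorem pr_NN (hU : PrimrecRel qU) (hW : PrimrecRel qW) {κ : α → Str} {s e0 : α → ℕ}
    (hκ : Primrec κ) (hs : Primrec s) (he : Primrec e0) :
    Primrec fun a => NN qU qW (κ a) (s a) (e0 a) := by
  unfold NN
  exact Primrec.nat_add.comp (Primrec.nat_mul.comp ((pr_nb hU hW).comp (hκ.pair hs))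
    (pr_pow.comp (Primrec.const 2) (Primrec.list_length.comp hκ))) he

theorem pr_Act (hU : PrimrecRel qU) (hW : PrimrecRel qW) (hV : PrimrecRel qV)
    {κ : α → Str} {s e0 c r : α → ℕ}
    (hκ : Primrec κ) (hs : Primrec s) (he : Primrec e0) (hc : Primrec c) (hr : Primrec r) :
    PrimrecPred fun a => Act qU qW qV (κ a) (s a) (e0 a) (c a) (r a) := by
  unfold Act
  have hN := pr_NN hU hW hκ hs he
  have hp : Primrec fun a => 2 ^ (s a + (κ a).length) :=
    pr_pow.comp (Primrec.const 2) (Primrec.nat_add.comp hs (Primrec.list_length.comp hκ))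
  have hN' := hN.comp (Primrec.fst (α := α) (β := IC))
  have hp' := hp.comp (Primrec.fst (α := α) (β := IC))
  have hr' := hr.comp (Primrec.fst (α := α) (β := IC))
  have t1 : Primrec fun x : α × IC => x.2.1 := Primrec.fst.comp Primrec.snd
  have t2 : Primrec fun x : α × IC => x.2.2 := Primrec.snd.comp Primrec.snd
  refine PP.ex_mem (f := fun a => cand IC (s a)) (p := fun a t => qV (c a, t) (s a) ∧
    t.1.1 * 2 ^ (s a + (κ a).length) < NN qU qW (κ a) (s a) (e0 a) * (t.1.2.2 + 1) +
      t.1.2.1 * 2 ^ (s a + (κ a).length) ∧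
    (NN qU qW (κ a) (s a) (e0 a) + r a) * (t.2.2.2 + 1) + t.2.2.1 * 2 ^ (s a + (κ a).length) ≤
      t.2.1 * 2 ^ (s a + (κ a).length)) ?_ ((pr_cand IC).comp hs)
  refine PrimrecPred.and ?_ (PrimrecPred.and ?_ ?_)
  · exact hV.comp ((hc.comp Primrec.fst).pair Primrec.snd) (hs.comp Primrec.fst)
  · refine Primrec.nat_lt.comp (Primrec.nat_mul.comp (Primrec.fst.comp t1) hp')
      (Primrec.nat_add.comp (Primrec.nat_mul.comp hN' (Primrec.succ.comp
        (Primrec.snd.comp (Primrec.snd.comp t1)))) (Primrec.nat_mul.comp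
          (Primrec.fst.comp (Primrec.snd.comp t1)) hp'))
  · refine Primrec.nat_le.comp (Primrec.nat_add.comp (Primrec.nat_mul.comp
      (Primrec.nat_add.comp hN' hr') (Primrec.succ.comp
        (Primrec.snd.comp (Primrec.snd.comp t2)))) (Primrec.nat_mul.comp
          (Primrec.fst.comp (Primrec.snd.comp t2)) hp')) (Primrec.nat_mul.comp
            (Primrec.fst.comp t2) hp')

theorem pr_TT : Primrec TT := by
  unfold TT
  exact pr_pow.comp (Primrec.const 2) (Primrec.succ.comp Primrec.list_length)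

theorem pr_kk : Primrec kk := by
  unfold kk
  exact Primrec.nat_add.comp Primrec.list_length (Primrec.const 3)

theorem pr_ini : Primrec ini := by
  unfold ini
  refine Primrec.list_map (Primrec.list_range.comp (Primrec.succ.comp pr_TT)) ?_
  refine Primrec.pair (Primrec.ite ?_ (Primrec.const 1) (Primrec.const 0)) (Primrec.const 0)
  exact Primrec.eq.comp Primrec.snd (pr_TT.comp Primrec.fst)

theorem pr_gE {L : α → List (ℕ × ℕ)} {l : α → ℕ} (hL : Primrec L) (hl : Primrec l) :
    Primrec fun a => gE (L a) (l a) :=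
  Primrec.fst.comp ((Primrec.list_getD ((0, 0) : ℕ × ℕ)).comp hL hl)

theorem pr_gS {L : α → List (ℕ × ℕ)} {l : α → ℕ} (hL : Primrec L) (hl : Primrec l) :
    Primrec fun a => gS (L a) (l a) :=
  Primrec.snd.comp ((Primrec.list_getD ((0, 0) : ℕ × ℕ)).comp hL hl)

theorem pr_lev {L : α → List (ℕ × ℕ)} (hL : Primrec L) : Primrec fun a => lev (L a) := by
  unfold lev
  refine Primrec.list_findIdx hL ?_
  exact (Primrec.nat_lt.comp (pr_gE (hL.comp Primrec.fst) (Primrec.const 0))
    (Primrec.fst.comp Primrec.snd)).decide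

theorem pr_amt (hU : PrimrecRel qU) (hW : PrimrecRel qW) (hV : PrimrecRel qV)
    {κ : α → Str} {s : α → ℕ} {L : α → List (ℕ × ℕ)}
    (hκ : Primrec κ) (hs : Primrec s) (hL : Primrec L) :
    Primrec fun a => amt qU qW qV (κ a) (s a) (L a) := by
  unfold amt
  have hlev := pr_lev hL
  refine Primrec.nat_findGreatest (p := fun a r => Act qU qW qV (κ a) (s a) (gE (L a) 0)
    (gS (L a) (lev (L a)) + kk (κ a)) r) ?_ ?_
  · exact Primrec.nat_sub.comp (pr_gE hL hlev) (pr_gE hL (Primrec.const 0))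
  · refine pr_Act (α := α × ℕ) hU hW hV (hκ.comp Primrec.fst) (hs.comp Primrec.fst)
      ((pr_gE hL (Primrec.const 0)).comp Primrec.fst) ?_ Primrec.snd
    exact (Primrec.nat_add.comp (pr_gS hL hlev) (pr_kk.comp hκ)).comp Primrec.fst

theorem pr_stepL (hU : PrimrecRel qU) (hW : PrimrecRel qW) (hV : PrimrecRel qV)
    {κ : α → Str} {s : α → ℕ} {L : α → List (ℕ × ℕ)}
    (hκ : Primrec κ) (hs : Primrec s) (hL : Primrec L) :
    Primrec fun a => stepL qU qW qV (κ a) (s a) (L a) := by
  unfold stepL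
  have hA := pr_amt hU hW hV hκ hs hL
  have hlev := pr_lev hL
  have hA' := hA.comp (Primrec.fst (α := α) (β := ℕ))
  have hlev' := hlev.comp (Primrec.fst (α := α) (β := ℕ))
  have hL' := hL.comp (Primrec.fst (α := α) (β := ℕ))
  have hs' := hs.comp (Primrec.fst (α := α) (β := ℕ))
  refine Primrec.list_map (Primrec.list_range.comp (Primrec.list_length.comp hL)) ?_
  refine Primrec.ite ?_ ?_ ?_
  · exact Primrec.eq.comp hA' (Primrec.const 0)
  · exact Primrec.pair (Primrec.nat_mul.comp (Primrec.const 2) (pr_gE hL' Primrec.snd))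
      (pr_gS hL' Primrec.snd)
  · refine Primrec.pair (Primrec.ite ?_ ?_ ?_) (Primrec.ite ?_ hs' (pr_gS hL' Primrec.snd))
    · exact Primrec.eq.comp (Primrec.succ.comp Primrec.snd) hlev'
    · exact Primrec.nat_mul.comp (Primrec.const 2) (Primrec.nat_add.comp
        (pr_gE hL' (Primrec.const 0)) hA')
    · exact Primrec.nat_mul.comp (Primrec.const 2) (pr_gE hL' Primrec.snd)
    · exact Primrec.nat_lt.comp Primrec.snd hlev'

theorem pr_ST (hU : PrimrecRel qU) (hW : PrimrecRel qW) (hV : PrimrecRel qV) :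
    Primrec₂ (ST qU qW qV) := by
  unfold ST
  refine Primrec.nat_rec (f := ini) (g := fun κ (x : ℕ × List (ℕ × ℕ)) =>
    stepL qU qW qV κ x.1 x.2) pr_ini ?_
  exact pr_stepL hU hW hV Primrec.fst (Primrec.fst.comp Primrec.snd)
    (Primrec.snd.comp Primrec.snd)

end prim

end Pool.Agent.H561R3.Om
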