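import Mathlib
import Pool.Agent.H561R3.Om.Defs
import Pool.Agent.H561R3.Om.Strat

set_option autoImplicit false

namespace Pool.Agent.H561R3.Om

open MeasureTheory Pool.Agent.H561R3 Filter Topology

section vv

variable (V : ℕ → Set IC)

/-- measure of the part of the `c`-th open set below `y` -/
noncomputable def vv (c : ℕ) (y : ℝ) : ℝ := (volume (openOf (V c) ∩ Set.Iio y)).toReal

variable {V} (hV : ∀ n, volume (openOf (V n)) ≤ ENNReal.ofReal ((1 / 2 : ℝ) ^ n))

include hV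

theorem vv_fin (c : ℕ) (y : ℝ) : volume (openOf (V c) ∩ Set.Iio y) ≠ ⊤ :=
  ne_top_of_le_ne_top ENNReal.ofReal_ne_top ((measure_mono Set.inter_subset_left).trans (hV c))

theorem vv_nonneg (c : ℕ) (y : ℝ) : 0 ≤ vv V c y := ENNReal.toReal_nonneg

theorem vv_le (c : ℕ) (y : ℝ) : vv V c y ≤ (1 / 2 : ℝ) ^ c := by
  unfold vv
  refine ENNReal.toReal_le_of_le_ofReal (by positivity) ?_
  exact (measure_mono Set.inter_subset_left).trans (hV c)

theorem vv_mono (c : ℕ) : Monotone (vv V c) := by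
  intro y z h
  unfold vv
  refine ENNReal.toReal_mono (vv_fin hV c z) (measure_mono ?_)
  exact Set.inter_subset_inter_right _ (Set.Iio_subset_Iio h)

theorem vv_lip (c : ℕ) (y z : ℝ) (h : y ≤ z) : vv V c z ≤ vv V c y + (z - y) := by
  have h1 : openOf (V c) ∩ Set.Iio z ⊆ (openOf (V c) ∩ Set.Iio y) ∪ Set.Ico y z := by
    rintro x ⟨hx, hxz⟩
    by_cases hxy : x < y
    · left; exact ⟨hx, hxy⟩
    · right; exact ⟨not_lt.1 hxy, hxz⟩
  have h2 : volume (openOf (V c) ∩ Set.Iio z) ≤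
      volume (openOf (V c) ∩ Set.Iio y) + ENNReal.ofReal (z - y) := by
    refine (measure_mono h1).trans ((measure_union_le _ _).trans ?_)
    rw [Real.volume_Ico]
  unfold vv
  have h3 := ENNReal.toReal_mono (by
    exact ENNReal.add_ne_top.2 ⟨vv_fin hV c y, ENNReal.ofReal_ne_top⟩) h2
  rw [ENNReal.toReal_add (vv_fin hV c y) ENNReal.ofReal_ne_top,
    ENNReal.toReal_ofReal (by linarith)] at h3
  exact h3

theorem vv_grow (c : ℕ) (y r : ℝ) (hr : 0 ≤ r) {t : IC} (ht : t ∈ V c) (h1 : ratOf t.1 < y)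
    (h2 : y + r ≤ ratOf t.2) : vv V c y + r ≤ vv V c (y + r) := by
  have h3 : (openOf (V c) ∩ Set.Iio y) ∪ Set.Ico y (y + r) ⊆ openOf (V c) ∩ Set.Iio (y + r) := by
    rintro x (⟨hx, hxy⟩ | ⟨hx1, hx2⟩)
    · exact ⟨hx, lt_of_lt_of_le hxy (le_add_of_nonneg_right hr)⟩
    · exact ⟨⟨t, ht, lt_of_lt_of_le h1 hx1, lt_of_lt_of_le hx2 h2⟩, hx2⟩
  have h4 : volume (openOf (V c) ∩ Set.Iio y) + ENNReal.ofReal r ≤
      volume (openOf (V c) ∩ Set.Iio (y + r)) := by
    refine le_trans (le_of_eq ?_) (measure_mono h3)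
    rw [measure_union _ measurableSet_Ico, Real.volume_Ico]
    · congr 2; ring
    · rw [Set.disjoint_left]
      rintro x ⟨_, hx⟩ ⟨hx1, _⟩
      exact absurd hx (not_lt.2 hx1)
  unfold vv
  have h5 := ENNReal.toReal_mono (vv_fin hV c (y + r)) h4
  rw [ENNReal.toReal_add (vv_fin hV c y) ENNReal.ofReal_ne_top, ENNReal.toReal_ofReal hr] at h5
  exact h5

end vv

section kraft

theorem kraft_nat (F : Finset Str) (hF : ∀ p ∈ F, ∀ q ∈ F, p <+: q → p = q) (N : ℕ)
    (hN : ∀ p ∈ F, p.length ≤ N) : ∑ p ∈ F, 2 ^ (N - p.length) ≤ 2 ^ N := by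
  classical
  have h1 : ∀ p ∈ F, 2 ^ (N - p.length) =
      ∑ x ∈ FS N, if x.take p.length = p then 1 else 0 := by
    intro p hp
    have h2 := sum_take (hN p hp) (fun y => if y = p then 1 else 0)
    rw [h2, Finset.sum_ite_eq' (FS p.length) p (fun _ => 1), if_pos (mem_FS.2 rfl), mul_one]
  rw [Finset.sum_congr rfl h1, Finset.sum_comm]
  have h3 : ∀ x ∈ FS N, (∑ p ∈ F, if x.take p.length = p then 1 else 0) ≤ 1 := by
    intro x _
    rw [← Finset.card_filter]
    rw [Finset.card_le_one]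
    intro p hp q hq
    rw [Finset.mem_filter] at hp hq
    have hp' : p <+: x := by rw [← hp.2]; exact List.take_prefix _ _
    have hq' : q <+: x := by rw [← hq.2]; exact List.take_prefix _ _
    rcases le_total p.length q.length with h | h
    · exact hF p hp.1 q hq.1 (List.prefix_of_prefix_length_le hp' hq' h)
    · exact (hF q hq.1 p hp.1 (List.prefix_of_prefix_length_le hq' hp' h)).symm
  refine (Finset.sum_le_sum h3).trans ?_
  rw [Finset.sum_const, card_FS]; simp

theorem kraft (F : Finset Str) (hF : ∀ p ∈ F, ∀ q ∈ F, p <+: q → p = q) :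
    ∑ p ∈ F, (1 / 2 : ℝ) ^ p.length ≤ 1 := by
  set N := F.sup List.length with hNdef
  have hN : ∀ p ∈ F, p.length ≤ N := fun p hp => Finset.le_sup (f := List.length) hp
  have h1 := kraft_nat F hF N hN
  have h2 : ((∑ p ∈ F, 2 ^ (N - p.length) : ℕ) : ℝ) ≤ ((2 ^ N : ℕ) : ℝ) := by exact_mod_cast h1
  push_cast at h2
  have h3 : ∀ p ∈ F, (2 : ℝ) ^ (N - p.length) = 2 ^ N * (1 / 2 : ℝ) ^ p.length := by
    intro p hp
    rw [one_div, inv_pow, pow_sub₀ _ (by norm_num) (hN p hp)]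
  rw [Finset.sum_congr rfl h3, ← Finset.mul_sum] at h2
  have h4 : (0 : ℝ) < 2 ^ N := by positivity
  by_contra h5
  push Not at h5
  nlinarith

theorem summable_dom {D : Set Str} (hD : ∀ p ∈ D, ∀ q ∈ D, p <+: q → p = q) :
    Summable (Set.indicator D fun p : Str => (1 / 2 : ℝ) ^ p.length) := by
  classical
  refine summable_of_sum_le (c := 1) (fun p => Set.indicator_nonneg (fun _ _ => by positivity) _) ?_
  intro u
  have h1 : ∑ p ∈ u, Set.indicator D (fun p : Str => (1 / 2 : ℝ) ^ p.length) p =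
      ∑ p ∈ u.filter (· ∈ D), (1 / 2 : ℝ) ^ p.length := by
    rw [Finset.sum_filter]
    refine Finset.sum_congr rfl fun p _ => ?_
    rw [Set.indicator_apply]
  rw [h1]
  refine kraft _ ?_
  intro p hp q hq
  rw [Finset.mem_filter] at hp hq
  exact hD p hp.2 q hq.2

theorem tendsto_live {D : Set Str} (hD : ∀ p ∈ D, ∀ q ∈ D, p <+: q → p = q)
    (L : ℕ → Finset Str) (A : Set Str) (hL : ∀ s, ∀ p ∈ L s, p ∈ D)
    (hA : ∀ p, ∀ᶠ s in atTop, (p ∈ L s ↔ p ∈ A)) :
    Tendsto (fun s => ∑ p ∈ L s, (1 / 2 : ℝ) ^ p.length) atTop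
      (𝓝 (∑' p : Str, Set.indicator A (fun p => (1 / 2 : ℝ) ^ p.length) p)) := by
  classical
  have h1 : ∀ s, ∑ p ∈ L s, (1 / 2 : ℝ) ^ p.length =
      ∑' p : Str, Set.indicator (L s : Set Str) (fun p => (1 / 2 : ℝ) ^ p.length) p := by
    intro s
    rw [tsum_eq_sum (s := L s)]
    · refine Finset.sum_congr rfl fun p hp => ?_
      rw [Set.indicator_of_mem (by exact_mod_cast hp)]
    · intro p hp
      rw [Set.indicator_of_notMem (by exact_mod_cast hp)]
  simp_rw [h1]
  refine tendsto_tsum_of_dominated_convergence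
    (bound := Set.indicator D fun p : Str => (1 / 2 : ℝ) ^ p.length) (summable_dom hD) ?_ ?_
  · intro p
    refine tendsto_const_nhds.congr' ?_
    filter_upwards [hA p] with s hs
    rw [Set.indicator_apply, Set.indicator_apply]
    by_cases h : p ∈ A
    · rw [if_pos h, if_pos (by exact_mod_cast hs.2 h)]
    · rw [if_neg h, if_neg (fun h' => h (hs.1 (by exact_mod_cast h')))]
  · refine Eventually.of_forall fun s p => ?_
    rw [Set.indicator_apply, Set.indicator_apply]
    by_cases h : p ∈ (L s : Set Str)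
    · rw [if_pos h, if_pos (hL s p (by exact_mod_cast h))]
      simp
    · rw [if_neg h]
      simp only [norm_zero]
      split_ifs <;> positivity

end kraft

end Pool.Agent.H561R3.Om
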