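import Mathlib

set_option autoImplicit false

namespace Pool.Agent.H561R3.Om

open Finset

/-- An abstract run of the nested strategy. -/
structure Run (P : Type) [DecidableEq P] where
  len : P → ℕ
  B : ℕ → Finset P
  G : ℕ → Finset P
  v : ℕ → ℝ → ℝ
  T : ℕ
  k : ℕ
  F : ℕ → ℕ → ℝ
  st : ℕ → ℕ → ℕ
  hB : Monotone B
  hG : Monotone G
  hGB : ∀ s, G s ⊆ B s
  hlen : ∀ s, ∀ x ∈ B s, len x ≤ s
  hK : ∀ s, ∑ x ∈ B s, (1 / 2 : ℝ) ^ len x ≤ 1
  v_nonneg : ∀ c y, 0 ≤ v c y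
  v_le : ∀ c y, v c y ≤ (1 / 2 : ℝ) ^ c
  v_mono : ∀ c, Monotone (v c)
  v_lip : ∀ c y z, y ≤ z → v c z ≤ v c y + (z - y)
  F_zero : ∀ l, l < T → F 0 l = 0
  F_T : 0 ≤ F 0 T
  T_pos : 0 < T
  st_zero : ∀ l, st 0 l = 0
  step : ∀ s, ((∀ l, l ≤ T → F (s + 1) l = F s l) ∧ (∀ l, st (s + 1) l = st s l)) ∨
    ∃ (j : ℕ) (ρ : ℝ), j < T ∧ 0 < ρ ∧ (∀ l, l ≤ j → F s l = F s 0) ∧ F s 0 + ρ ≤ F s (j + 1) ∧
      F (s + 1) j = F s 0 + ρ ∧ (∀ l, l ≤ T → l ≠ j → F (s + 1) l = F s l) ∧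
      (∀ l, st (s + 1) l = if l ≤ j then s else st s l) ∧
      v (st s (j + 1) + k) (F s 0 + ∑ x ∈ B s \ G s, (1 / 2 : ℝ) ^ len x) + ρ ≤
        v (st s (j + 1) + k) (F s 0 + ∑ x ∈ B s \ G s, (1 / 2 : ℝ) ^ len x + ρ)

namespace Run

variable {P : Type} [DecidableEq P] (R : Run P)

noncomputable def w (x : P) : ℝ := (1 / 2 : ℝ) ^ R.len x

theorem w_pos (x : P) : 0 < R.w x := by unfold w; positivity

/-- the current approximation to the real -/
noncomputable def al (s : ℕ) : ℝ := R.F s 0 + ∑ x ∈ R.B s \ R.G s, R.w x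

/-- the capped removed mass at level `j` -/
noncomputable def Q (j s : ℕ) : ℝ := ∑ t ∈ range s,
  ∑ x ∈ R.B (R.st (t + 1) j) ∩ (R.G (t + 1) \ R.G t),
    min (R.w x) ((1 / 2 : ℝ) ^ (R.st (t + 1) (j + 1) + R.k))

noncomputable def D (q : ℕ) : ℝ := 2 * (1 / 2 : ℝ) ^ R.k * (1 - (1 / 2 : ℝ) ^ q)

theorem D_nonneg (q : ℕ) : 0 ≤ R.D q := by
  unfold D
  have h : (1 / 2 : ℝ) ^ q ≤ 1 := pow_le_one₀ (by norm_num) (by norm_num)
  have h2 : (0 : ℝ) ≤ (1 / 2 : ℝ) ^ R.k := by positivity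
  nlinarith

theorem D_step {q s : ℕ} (h : q < s) : (1 / 2 : ℝ) ^ (q + R.k) + R.D q ≤ R.D s := by
  unfold D
  have h1 : (1 / 2 : ℝ) ^ s ≤ (1 / 2 : ℝ) ^ (q + 1) :=
    pow_le_pow_of_le_one (by norm_num) (by norm_num) h
  have h2 : (0 : ℝ) < (1 / 2 : ℝ) ^ R.k := by positivity
  rw [pow_succ] at h1
  rw [pow_add]
  nlinarith

theorem D_top (q : ℕ) : (1 / 2 : ℝ) ^ (q + R.k) + R.D q ≤ 2 * (1 / 2 : ℝ) ^ R.k := by
  unfold D
  have h2 : (0 : ℝ) < (1 / 2 : ℝ) ^ R.k := by positivity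
  have h3 : (0 : ℝ) < (1 / 2 : ℝ) ^ q := by positivity
  rw [pow_add]
  nlinarith

/-- basic order facts -/
theorem st_le (s : ℕ) : ∀ l, R.st s l ≤ s ∧ (0 < s → R.st s l < s) := by
  induction s with
  | zero => intro l; rw [R.st_zero]; simp
  | succ s ih =>
    intro l
    rcases R.step s with ⟨_, h⟩ | ⟨j, _, _, _, _, _, _, _, h, _⟩
    · rw [h]; have := (ih l).1; omega
    · rw [h]; have := (ih l).1
      split_ifs <;> omega

theorem st_anti (s : ℕ) : ∀ l, R.st s (l + 1) ≤ R.st s l := by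
  induction s with
  | zero => intro l; rw [R.st_zero, R.st_zero]
  | succ s ih =>
    intro l
    rcases R.step s with ⟨_, h⟩ | ⟨j, _, _, _, _, _, _, _, h, _⟩
    · rw [h, h]; exact ih l
    · rw [h, h]
      have h1 := (R.st_le s l).1
      have h2 := (R.st_le s (l + 1)).1
      have h3 := ih l
      split_ifs <;> omega

theorem F_mono_l (s : ℕ) : ∀ l, l < R.T → R.F s l ≤ R.F s (l + 1) := by
  induction s with
  | zero =>
    intro l hl
    rw [R.F_zero l hl]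
    rcases Nat.lt_or_ge (l + 1) R.T with h | h
    · rw [R.F_zero _ h]
    · have : l + 1 = R.T := by omega
      rw [this]; exact R.F_T
  | succ s ih =>
    intro l hl
    rcases R.step s with ⟨h, _⟩ | ⟨j, ρ, hj, hr, h0, hle, hj1, hne, _, _⟩
    · rw [h l (by omega), h (l + 1) (by omega)]; exact ih l hl
    · by_cases h1 : l = j
      · subst h1
        rw [hj1, hne (l + 1) (by omega) (by omega)]; exact hle
      · by_cases h2 : l + 1 = j
        · rw [h2, hj1, hne l (by omega) h1, h0 l (by omega)]; linarith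
        · rw [hne l (by omega) h1, hne (l + 1) (by omega) h2]; exact ih l hl

theorem F_zero_le (s : ℕ) : ∀ l, l ≤ R.T → R.F s 0 ≤ R.F s l := by
  intro l
  induction l with
  | zero => intro _; exact le_rfl
  | succ l ih => intro h; exact (ih (by omega)).trans (R.F_mono_l s l (by omega))

theorem al_ge {p s : ℕ} (h : p ≤ s) :
    R.al p + (R.F s 0 - R.F p 0) - ∑ x ∈ R.B p ∩ (R.G s \ R.G p), R.w x ≤ R.al s := by
  unfold al
  have h1 : R.B p \ R.G p ⊆ (R.B s \ R.G s) ∪ (R.B p ∩ (R.G s \ R.G p)) := by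
    intro x hx
    rw [mem_sdiff] at hx
    rw [mem_union, mem_sdiff, mem_inter, mem_sdiff]
    by_cases hs : x ∈ R.G s
    · right; exact ⟨hx.1, hs, hx.2⟩
    · left; exact ⟨R.hB h hx.1, hs⟩
  have h2 : ∑ x ∈ R.B p \ R.G p, R.w x ≤ ∑ x ∈ (R.B s \ R.G s) ∪ (R.B p ∩ (R.G s \ R.G p)), R.w x :=
    sum_le_sum_of_subset_of_nonneg h1 fun x _ _ => (R.w_pos x).le
  have h3 : ∑ x ∈ (R.B s \ R.G s) ∪ (R.B p ∩ (R.G s \ R.G p)), R.w x ≤
      ∑ x ∈ R.B s \ R.G s, R.w x + ∑ x ∈ R.B p ∩ (R.G s \ R.G p), R.w x := by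
    rw [← sum_union_inter]
    have : 0 ≤ ∑ x ∈ (R.B s \ R.G s) ∩ (R.B p ∩ (R.G s \ R.G p)), R.w x :=
      sum_nonneg fun x _ => (R.w_pos x).le
    linarith
  linarith

theorem v_cap (c : ℕ) (S : Finset P) (y : ℝ) (m : ℕ) (hm : m = c) :
    R.v c y - ∑ x ∈ S, min (R.w x) ((1 / 2 : ℝ) ^ m) ≤ R.v c (y - ∑ x ∈ S, R.w x) := by
  subst hm
  induction S using Finset.induction_on generalizing y with
  | empty => simp
  | insert a S ha ih =>
    rw [sum_insert ha, sum_insert ha]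
    have h1 := ih (y - R.w a)
    have h2 : y - R.w a - ∑ x ∈ S, R.w x = y - (R.w a + ∑ x ∈ S, R.w x) := by ring
    rw [h2] at h1
    have h3 : R.v m y - min (R.w a) ((1 / 2 : ℝ) ^ m) ≤ R.v m (y - R.w a) := by
      have h4 := R.v_lip m (y - R.w a) y (by have := R.w_pos a; linarith)
      have h5 := R.v_le m y
      have h6 := R.v_nonneg m (y - R.w a)
      rcases min_choice (R.w a) ((1 / 2 : ℝ) ^ m) with h | h
      · rw [h]; linarith
      · rw [h]; linarith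
    linarith

theorem Q_succ (j s : ℕ) : R.Q j (s + 1) = R.Q j s +
    ∑ x ∈ R.B (R.st (s + 1) j) ∩ (R.G (s + 1) \ R.G s),
      min (R.w x) ((1 / 2 : ℝ) ^ (R.st (s + 1) (j + 1) + R.k)) := by
  unfold Q; rw [sum_range_succ]

theorem min_nonneg' (x : P) (m : ℕ) : 0 ≤ min (R.w x) ((1 / 2 : ℝ) ^ m) :=
  le_min (R.w_pos x).le (by positivity)

theorem inv2 (j s : ℕ) : R.Q j (R.st s j) +
    ∑ x ∈ R.B (R.st s j) ∩ (R.G s \ R.G (R.st s j)),
      min (R.w x) ((1 / 2 : ℝ) ^ (R.st s (j + 1) + R.k)) ≤ R.Q j s := by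
  induction s with
  | zero => rw [R.st_zero, R.st_zero]; simp
  | succ s ih =>
    rw [R.Q_succ]
    have key : (R.st (s + 1) j = R.st s j ∧ R.st (s + 1) (j + 1) = R.st s (j + 1)) ∨
        R.st (s + 1) j = s := by
      rcases R.step s with ⟨_, h⟩ | ⟨i, _, _, _, _, _, _, _, h, _⟩
      · left; rw [h, h]; exact ⟨rfl, rfl⟩
      · by_cases h1 : j ≤ i
        · right; rw [h, if_pos h1]
        · left; rw [h, h, if_neg h1, if_neg (by omega)]; exact ⟨rfl, rfl⟩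
    rcases key with ⟨h1, h2⟩ | h1
    · rw [h1, h2]
      have hp := (R.st_le s j).1
      have h3 : R.B (R.st s j) ∩ (R.G (s + 1) \ R.G (R.st s j)) ⊆
          (R.B (R.st s j) ∩ (R.G s \ R.G (R.st s j))) ∪
          (R.B (R.st s j) ∩ (R.G (s + 1) \ R.G s)) := by
        intro x hx
        rw [mem_inter, mem_sdiff] at hx
        rw [mem_union, mem_inter, mem_sdiff, mem_inter, mem_sdiff]
        by_cases hs : x ∈ R.G s
        · left; exact ⟨hx.1, hs, hx.2.2⟩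
        · right; exact ⟨hx.1, hx.2.1, hs⟩
      have h4 := sum_le_sum_of_subset_of_nonneg (f := fun x => min (R.w x)
        ((1 / 2 : ℝ) ^ (R.st s (j + 1) + R.k))) h3 fun x _ _ => R.min_nonneg' x _
      have h5 := sum_union_inter (s₁ := R.B (R.st s j) ∩ (R.G s \ R.G (R.st s j)))
        (s₂ := R.B (R.st s j) ∩ (R.G (s + 1) \ R.G s)) (f := fun x => min (R.w x)
        ((1 / 2 : ℝ) ^ (R.st s (j + 1) + R.k)))
      have h6 : 0 ≤ ∑ x ∈ (R.B (R.st s j) ∩ (R.G s \ R.G (R.st s j))) ∩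
          (R.B (R.st s j) ∩ (R.G (s + 1) \ R.G s)), min (R.w x)
            ((1 / 2 : ℝ) ^ (R.st s (j + 1) + R.k)) := sum_nonneg fun x _ => R.min_nonneg' x _
      linarith
    · rw [h1]

theorem main_H (j s : ℕ) (hj : j < R.T)
    (h1 : R.F s j ≤ R.v (R.st s (j + 1) + R.k) (R.al (R.st s j) + (R.F s j - R.F (R.st s j) 0)) +
      R.Q j (R.st s j) + R.D (R.st s (j + 1))) :
    R.F s 0 ≤ R.v (R.st s (j + 1) + R.k) (R.al s) + R.Q j s + R.D (R.st s (j + 1)) := by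
  have hF := R.F_zero_le s j (by omega)
  have h2 := R.v_lip (R.st s (j + 1) + R.k) (R.al (R.st s j) + (R.F s 0 - R.F (R.st s j) 0))
    (R.al (R.st s j) + (R.F s j - R.F (R.st s j) 0)) (by linarith)
  have h3 := R.v_cap (R.st s (j + 1) + R.k) (R.B (R.st s j) ∩ (R.G s \ R.G (R.st s j)))
    (R.al (R.st s j) + (R.F s 0 - R.F (R.st s j) 0)) _ rfl
  have h4 := R.v_mono (R.st s (j + 1) + R.k) (R.al_ge (R.st_le s j).1)
  have h5 := R.inv2 j s
  linarith

theorem inv1 (j s : ℕ) (hj : j < R.T) :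
    R.F s j ≤ R.v (R.st s (j + 1) + R.k) (R.al (R.st s j) + (R.F s j - R.F (R.st s j) 0)) +
      R.Q j (R.st s j) + R.D (R.st s (j + 1)) := by
  induction s with
  | zero =>
    rw [R.F_zero j hj, R.st_zero, R.st_zero]
    have h1 := R.v_nonneg (0 + R.k) (R.al 0 + (0 - R.F 0 0))
    have h2 := R.D_nonneg 0
    have h3 : R.Q j 0 = 0 := by simp [Q]
    linarith
  | succ s ih =>
    have hH := R.main_H j s hj ih
    rcases R.step s with ⟨h, h'⟩ | ⟨i, ρ, hi, hr, h0, hle, hj1, hne, hst, hv⟩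
    · rw [h j (by omega), h', h']; exact ih
    · rcases Nat.lt_trichotomy i j with h1 | h1 | h1
      · rw [hne j (by omega) (by omega), hst, hst, if_neg (by omega), if_neg (by omega)]
        exact ih
      · subst h1
        rw [hj1, hst, hst, if_pos le_rfl, if_neg (by omega)]
        have h2 : R.al s + (R.F s 0 + ρ - R.F s 0) = R.al s + ρ := by ring
        rw [h2]
        have h3 : R.v (R.st s (i + 1) + R.k) (R.al s) + ρ ≤
            R.v (R.st s (i + 1) + R.k) (R.al s + ρ) := hv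
        linarith
      · rw [hne j (by omega) (by omega), hst, hst, if_pos (by omega), if_pos (by omega),
          h0 j (by omega)]
        have h2 : R.al s + (R.F s 0 - R.F s 0) = R.al s := by ring
        rw [h2]
        rcases Nat.eq_zero_or_pos s with hs | hs
        · subst hs
          rw [R.F_zero 0 R.T_pos]
          have h3 := R.v_nonneg (0 + R.k) (R.al 0)
          have h4 := R.D_nonneg 0
          have h5 : R.Q j 0 = 0 := by simp [Q]
          linarith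
        · have h3 := R.D_step ((R.st_le s (j + 1)).2 hs)
          have h4 := R.v_le (R.st s (j + 1) + R.k) (R.al s)
          have h5 := R.v_nonneg (s + R.k) (R.al s)
          linarith

theorem F_le_Q (j s : ℕ) (hj : j < R.T) : R.F s 0 ≤ R.Q j s + 2 * (1 / 2 : ℝ) ^ R.k := by
  have h1 := R.main_H j s hj (R.inv1 j s hj)
  have h2 := R.v_le (R.st s (j + 1) + R.k) (R.al s)
  have h3 := R.D_top (R.st s (j + 1))
  linarith

theorem elem_bound (t : ℕ) (x : P) :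
    ∑ j ∈ range R.T, (if x ∈ R.B (R.st t j) then
      min (R.w x) ((1 / 2 : ℝ) ^ (R.st t (j + 1) + R.k)) else 0) ≤
      (1 + R.T * (1 / 2 : ℝ) ^ R.k) * R.w x := by
  have h1 : ∀ j, (if x ∈ R.B (R.st t j) then
      min (R.w x) ((1 / 2 : ℝ) ^ (R.st t (j + 1) + R.k)) else 0) ≤
      ((if x ∈ R.B (R.st t j) then R.w x else 0) - (if x ∈ R.B (R.st t (j + 1)) then R.w x else 0))
        + (1 / 2 : ℝ) ^ R.k * R.w x := by
    intro j
    have hw := R.w_pos x
    have hk : (0 : ℝ) < (1 / 2 : ℝ) ^ R.k * R.w x := by positivity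
    by_cases h2 : x ∈ R.B (R.st t (j + 1))
    · have h3 : x ∈ R.B (R.st t j) := R.hB (R.st_anti t j) h2
      rw [if_pos h2, if_pos h3, if_pos h3]
      have h4 := R.hlen _ x h2
      have h5 : (1 / 2 : ℝ) ^ (R.st t (j + 1) + R.k) ≤ (1 / 2 : ℝ) ^ R.k * R.w x := by
        unfold w
        rw [← pow_add]
        exact pow_le_pow_of_le_one (by norm_num) (by norm_num) (by omega)
      have h6 := min_le_right (R.w x) ((1 / 2 : ℝ) ^ (R.st t (j + 1) + R.k))
      linarith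
    · rw [if_neg h2]
      by_cases h3 : x ∈ R.B (R.st t j)
      · rw [if_pos h3, if_pos h3]
        have h6 := min_le_left (R.w x) ((1 / 2 : ℝ) ^ (R.st t (j + 1) + R.k))
        linarith
      · rw [if_neg h3, if_neg h3]; linarith
  refine (sum_le_sum fun j _ => h1 j).trans ?_
  rw [sum_add_distrib, sum_range_sub', sum_const, card_range, nsmul_eq_mul]
  have hw := R.w_pos x
  have h2 : (if x ∈ R.B (R.st t 0) then R.w x else 0) ≤ R.w x := by split_ifs <;> linarith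
  have h3 : 0 ≤ (if x ∈ R.B (R.st t R.T) then R.w x else 0) := by split_ifs <;> linarith
  linarith

theorem sum_Q (s : ℕ) : ∑ j ∈ range R.T, R.Q j s ≤
    (1 + R.T * (1 / 2 : ℝ) ^ R.k) * ∑ x ∈ R.G s, R.w x := by
  induction s with
  | zero =>
    have h1 : ∑ j ∈ range R.T, R.Q j 0 = 0 := by
      refine sum_eq_zero fun j _ => ?_
      simp [Q]
    rw [h1]
    have : 0 ≤ ∑ x ∈ R.G 0, R.w x := sum_nonneg fun x _ => (R.w_pos x).le
    positivity
  | succ s ih =>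
    simp only [R.Q_succ]
    rw [sum_add_distrib]
    have h1 : ∑ x ∈ R.G (s + 1), R.w x = ∑ x ∈ R.G (s + 1) \ R.G s, R.w x + ∑ x ∈ R.G s, R.w x :=
      (sum_sdiff (R.hG (Nat.le_succ s))).symm
    rw [h1, mul_add]
    have h2 : ∑ j ∈ range R.T, ∑ x ∈ R.B (R.st (s + 1) j) ∩ (R.G (s + 1) \ R.G s),
        min (R.w x) ((1 / 2 : ℝ) ^ (R.st (s + 1) (j + 1) + R.k)) ≤
        (1 + R.T * (1 / 2 : ℝ) ^ R.k) * ∑ x ∈ R.G (s + 1) \ R.G s, R.w x := by
      have h3 : ∀ j, ∑ x ∈ R.B (R.st (s + 1) j) ∩ (R.G (s + 1) \ R.G s),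
        min (R.w x) ((1 / 2 : ℝ) ^ (R.st (s + 1) (j + 1) + R.k)) =
        ∑ x ∈ R.G (s + 1) \ R.G s, (if x ∈ R.B (R.st (s + 1) j) then
          min (R.w x) ((1 / 2 : ℝ) ^ (R.st (s + 1) (j + 1) + R.k)) else 0) := by
        intro j
        rw [inter_comm, ← sum_filter]
        congr 1
      simp only [h3]
      rw [sum_comm, mul_sum]
      exact sum_le_sum fun x _ => R.elem_bound (s + 1) x
    linarith

/-- The total spending is bounded away from the target. -/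
theorem bound (s : ℕ) : R.T * R.F s 0 ≤ 1 + 3 * (R.T * (1 / 2 : ℝ) ^ R.k) := by
  have h1 : ∑ _j ∈ range R.T, R.F s 0 ≤ ∑ j ∈ range R.T, (R.Q j s + 2 * (1 / 2 : ℝ) ^ R.k) :=
    sum_le_sum fun j hj => R.F_le_Q j s (mem_range.1 hj)
  rw [sum_const, card_range, nsmul_eq_mul, sum_add_distrib, sum_const, card_range,
    nsmul_eq_mul] at h1
  have h2 := R.sum_Q s
  have h3 : ∑ x ∈ R.G s, R.w x ≤ 1 :=
    (sum_le_sum_of_subset_of_nonneg (R.hGB s) fun x _ _ => (R.w_pos x).le).trans (R.hK s)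
  have h4 : (0 : ℝ) ≤ R.T * (1 / 2 : ℝ) ^ R.k := by positivity
  have h5 : (1 + R.T * (1 / 2 : ℝ) ^ R.k) * ∑ x ∈ R.G s, R.w x ≤ (1 + R.T * (1 / 2 : ℝ) ^ R.k) * 1 :=
    mul_le_mul_of_nonneg_left h3 (by linarith)
  linarith

end Run

end Pool.Agent.H561R3.Om
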