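import Mathlib
import Pool.Agent.H561R3.Om.Core

set_option autoImplicit false

namespace Pool.Agent.H561R3.Om

open Finset

namespace Run

variable {P : Type} [DecidableEq P] (R : Run P)

/-- nothing happens at the levels from `j` on -/
def NA (s j : ℕ) : Prop := ∀ l, j ≤ l → l ≤ R.T → R.F (s + 1) l = R.F s l ∧ R.st (s + 1) l = R.st s l

/-- level `j` acts -/
def Acts (s j : ℕ) : Prop := j < R.T ∧ (∀ l, l ≤ j → R.F s l = R.F s 0) ∧
  R.F s 0 < R.F s (j + 1) ∧ R.F s j < R.F (s + 1) j

variable {R}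

theorem NA.mono {s i j : ℕ} (h : R.NA s i) (hij : i ≤ j) : R.NA s j :=
  fun l hl hT => h l (hij.trans hl) hT

theorem step_cases (s : ℕ) : R.NA s 0 ∨ ∃ j, R.Acts s j ∧ R.NA s (j + 1) := by
  rcases R.step s with ⟨h, h'⟩ | ⟨i, ρ, hi, hr, h0, hle, hj1, hne, hst, hv⟩
  · left; intro l _ hl; exact ⟨h l hl, h' l⟩
  · right
    refine ⟨i, ⟨hi, h0, by linarith, ?_⟩, ?_⟩
    · rw [hj1, h0 i le_rfl]; linarith
    · intro l hl hT
      exact ⟨hne l hT (by omega), by rw [hst, if_neg (by omega)]⟩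

theorem NA_or_acts {s j : ℕ} (h : R.NA s (j + 1)) : R.NA s j ∨ R.Acts s j := by
  rcases R.step_cases s with h1 | ⟨i, h1, h2⟩
  · left; exact h1.mono (by omega)
  · rcases Nat.lt_trichotomy i j with h3 | h3 | h3
    · left; exact h2.mono (by omega)
    · subst h3; right; exact h1
    · exfalso
      have h4 := (h i (by omega) h1.1.le).1
      have h5 := h1.2.2.2
      linarith

theorem F0_mono_step (s : ℕ) : R.F s 0 ≤ R.F (s + 1) 0 := by
  rcases R.step_cases s with h1 | ⟨i, h1, h2⟩
  · rw [(h1 0 le_rfl (Nat.zero_le _)).1]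
  · rcases Nat.eq_zero_or_pos i with h3 | h3
    · subst h3; exact h1.2.2.2.le
    · rcases R.step s with ⟨h, h'⟩ | ⟨i', ρ, hi, hr, h0, hle, hj1, hne, hst, hv⟩
      · rw [h 0 (Nat.zero_le _)]
      · by_cases h4 : 0 = i'
        · subst h4; rw [hj1]; linarith
        · rw [hne 0 (Nat.zero_le _) h4]

theorem F0_mono : Monotone (fun s => R.F s 0) := monotone_nat_of_le_succ R.F0_mono_step

theorem F_T_const (s : ℕ) : R.F s R.T = R.F 0 R.T := by
  induction s with
  | zero => rfl
  | succ s ih =>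
    rw [← ih]
    rcases R.step s with ⟨h, h'⟩ | ⟨i', ρ, hi, hr, h0, hle, hj1, hne, hst, hv⟩
    · exact h _ le_rfl
    · exact hne _ le_rfl (by omega)

theorem cauchy (θ : ℝ) (hθ : 0 < θ) (n : ℕ) : ∃ s2, n ≤ s2 ∧ ∀ s, R.F s 0 < R.F s2 0 + θ := by
  have hb : BddAbove (Set.range fun s => R.F s 0) := by
    refine ⟨R.F 0 R.T, ?_⟩
    rintro _ ⟨s, rfl⟩
    rw [← R.F_T_const s]
    exact R.F_zero_le s R.T le_rfl
  have h1 : (⨆ s, R.F s 0) - θ < ⨆ s, R.F s 0 := by linarith
  obtain ⟨s1, h2⟩ := exists_lt_of_lt_ciSup h1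
  refine ⟨max n s1, le_max_left _ _, fun s => ?_⟩
  have h3 : R.F s1 0 ≤ R.F (max n s1) 0 := R.F0_mono (le_max_right _ _)
  have h4 : R.F s 0 ≤ ⨆ s, R.F s 0 := le_ciSup hb s
  linarith

theorem const_of_NA {s0 j : ℕ} (h : ∀ s, s0 ≤ s → R.NA s j) {l : ℕ} (hl : j ≤ l) (hT : l ≤ R.T)
    {s : ℕ} (hs : s0 ≤ s) : R.F s l = R.F s0 l ∧ R.st s l = R.st s0 l := by
  induction s, hs using Nat.le_induction with
  | base => exact ⟨rfl, rfl⟩
  | succ s hs ih =>
    have := h s hs l hl hT
    rw [this.1, this.2]; exact ih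

/-- The strategy reaches its target. -/
theorem reach (hact : ∀ c : ℕ, ∃ θ > 0, ∃ s0, ∀ s, s0 ≤ s → ∀ j, j < R.T →
      (∀ l, l ≤ j → R.F s l = R.F s 0) → R.F s 0 < R.F s (j + 1) → R.st s (j + 1) + R.k = c →
      min (R.F s (j + 1)) (R.F s 0 + θ) ≤ R.F (s + 1) j) :
    ∃ s, R.F s 0 = R.F s R.T := by
  by_contra hcon
  push Not at hcon
  have hlt : ∀ s, R.F s 0 < R.F s R.T := fun s =>
    lt_of_le_of_ne (R.F_zero_le s R.T le_rfl) (hcon s)
  have claim : ∀ m, m ≤ R.T → ∃ s0, ∀ s, s0 ≤ s → R.NA s (R.T - m) := by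
    intro m
    induction m with
    | zero =>
      intro _
      refine ⟨0, fun s _ => ?_⟩
      rcases R.step_cases s with h1 | ⟨i, h1, h2⟩
      · exact h1.mono (Nat.zero_le _)
      · exact h2.mono (by have := h1.1; omega)
    | succ m ih =>
      intro hm
      obtain ⟨s0, hs0⟩ := ih (by omega)
      set j := R.T - (m + 1) with hj
      have hj1 : R.T - m = j + 1 := by omega
      have hjT : j < R.T := by omega
      rw [hj1] at hs0
      obtain ⟨θ, hθ, s1, hs1⟩ := hact (R.st s0 (j + 1) + R.k)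
      obtain ⟨s2, hs2, hc⟩ := R.cauchy θ hθ (max s0 s1)
      by_cases hex : ∃ s, s2 ≤ s ∧ R.Acts s j
      · obtain ⟨s, hs, hA⟩ := hex
        have hss0 : s0 ≤ s := le_trans (le_trans (le_max_left _ _) hs2) hs
        have hss1 : s1 ≤ s := le_trans (le_trans (le_max_right _ _) hs2) hs
        have hcs := const_of_NA hs0 le_rfl (by omega) hss0
        have h1 := hs1 s hss1 j hjT hA.2.1 hA.2.2.1 (by rw [hcs.2])
        have key : ∀ s', s + 1 ≤ s' → R.F s' j = R.F (s + 1) j := by
          intro s' hs'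
          induction s', hs' using Nat.le_induction with
          | base => rfl
          | succ s' hs' ih' =>
            rcases NA_or_acts (hs0 s' (by omega)) with h2 | h2
            · rw [(h2 j le_rfl hjT.le).1]; exact ih'
            · exfalso
              have h3 := h2.2.1 j le_rfl
              have h4 := h2.2.2.1
              have h5 := const_of_NA hs0 (le_refl (j + 1)) (by omega) (show s0 ≤ s' by omega)
              have h6 := hc s'
              have h7 : R.F s2 0 ≤ R.F s 0 := R.F0_mono hs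
              rw [h5.1] at h4
              rw [hcs.1] at h1
              rcases min_le_iff.1 h1 with h8 | h8 <;> linarith
        refine ⟨s + 1, fun s' hs' => ?_⟩
        rcases NA_or_acts (hs0 s' (by omega)) with h2 | h2
        · exact h2
        · exfalso
          have h3 := h2.2.2.2
          rw [key s' hs', key (s' + 1) (by omega)] at h3
          exact lt_irrefl _ h3
      · push Not at hex
        refine ⟨s2, fun s hs => ?_⟩
        rcases NA_or_acts (hs0 s (le_trans (le_trans (le_max_left _ _) hs2) hs)) with h2 | h2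
        · exact h2
        · exact absurd h2 (hex s hs)
  obtain ⟨s0, hs0⟩ := claim R.T le_rfl
  rw [Nat.sub_self] at hs0
  have hex : ∃ j, R.F s0 0 < R.F s0 (j + 1) := by
    refine ⟨R.T - 1, ?_⟩
    have : R.T - 1 + 1 = R.T := by have := R.T_pos; omega
    rw [this]; exact hlt s0
  classical
  set j := Nat.find hex with hj
  have h1 : R.F s0 0 < R.F s0 (j + 1) := Nat.find_spec hex
  have hjT : j < R.T := by
    have h2 : j ≤ R.T - 1 := by
      refine Nat.find_min' hex ?_
      have : R.T - 1 + 1 = R.T := by have := R.T_pos; omega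
      rw [this]; exact hlt s0
    have := R.T_pos
    omega
  have h0 : ∀ l, l ≤ j → R.F s0 l = R.F s0 0 := by
    intro l hl
    rcases Nat.eq_zero_or_pos l with h | h
    · rw [h]
    · have h2 : ¬ R.F s0 0 < R.F s0 (l - 1 + 1) := Nat.find_min hex (by omega)
      have h3 : l - 1 + 1 = l := by omega
      rw [h3] at h2
      have h4 := R.F_zero_le s0 l (by omega)
      linarith
  obtain ⟨θ, hθ, s1, hs1⟩ := hact (R.st s0 (j + 1) + R.k)
  have hms : s0 ≤ max s0 s1 := le_max_left _ _
  have e : ∀ l, l ≤ R.T → R.F (max s0 s1) l = R.F s0 l ∧ R.st (max s0 s1) l = R.st s0 l :=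
    fun l hl => const_of_NA hs0 (Nat.zero_le _) hl hms
  have h2 := hs1 (max s0 s1) (le_max_right _ _) j hjT
    (fun l hl => by rw [(e l (by omega)).1, (e 0 (by omega)).1]; exact h0 l hl)
    (by rw [(e 0 (by omega)).1, (e (j + 1) (by omega)).1]; exact h1)
    (by rw [(e (j + 1) (by omega)).2])
  rw [(hs0 _ hms j (Nat.zero_le _) hjT.le).1, (e j hjT.le).1, (e (j + 1) (by omega)).1,
    (e 0 (by omega)).1, h0 j le_rfl] at h2
  rcases min_le_iff.1 h2 with h3 | h3 <;> linarith

end Run

end Pool.Agent.H561R3.Om
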