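import Mathlib
import Pool.Agent.H561R3.Om.Strat

set_option autoImplicit false

namespace Pool.Agent.H561R3.Om

open Encodable Pool.Agent.Helper227 Pool.Agent.H561R3

open Classical

theorem getD_map_range {β : Type} (n : ℕ) (f : ℕ → β) (l : ℕ) (d : β) :
    ((List.range n).map f).getD l d = if l < n then f l else d := by
  split_ifs with h
  · rw [List.getD_eq_getElem _ _ (by simpa using h)]; simp
  · rw [List.getD_eq_default]; simpa using h

variable (qU : Str × Str → ℕ → Prop) (qW : Str → ℕ → Prop) (qV : ℕ × IC → ℕ → Prop) (κ : Str)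

/-- the values at stage `s` -/
noncomputable def e (s l : ℕ) : ℕ := gE (ST qU qW qV κ s) l

/-- the starting stages -/
noncomputable def sg (s l : ℕ) : ℕ := gS (ST qU qW qV κ s) l

theorem ST_zero : ST qU qW qV κ 0 = ini κ := rfl

theorem ST_succ (s : ℕ) : ST qU qW qV κ (s + 1) = stepL qU qW qV κ s (ST qU qW qV κ s) := rfl

theorem len_ST (s : ℕ) : (ST qU qW qV κ s).length = TT κ + 1 := by
  induction s with
  | zero => rw [ST_zero]; simp [ini]
  | succ s ih => rw [ST_succ]; unfold stepL; simp [ih]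

theorem e_zero (l : ℕ) : e qU qW qV κ 0 l = if l = TT κ then 1 else 0 := by
  unfold e gE
  rw [ST_zero]
  unfold ini
  rw [getD_map_range]
  by_cases h : l = TT κ
  · rw [if_pos (by omega), if_pos h]
  · rw [if_neg h]
    split_ifs <;> simp

theorem sg_zero (l : ℕ) : sg qU qW qV κ 0 l = 0 := by
  unfold sg gS
  rw [ST_zero]
  unfold ini
  rw [getD_map_range]
  split_ifs <;> rfl

theorem gE_out {L : List (ℕ × ℕ)} {l : ℕ} (h : L.length ≤ l) : gE L l = 0 := by
  unfold gE; rw [List.getD_eq_default _ _ h]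

theorem gS_out {L : List (ℕ × ℕ)} {l : ℕ} (h : L.length ≤ l) : gS L l = 0 := by
  unfold gS; rw [List.getD_eq_default _ _ h]

theorem lev_spec {L : List (ℕ × ℕ)} (h : lev L < L.length) : gE L 0 < gE L (lev L) := by
  have h1 : (fun x : ℕ × ℕ => decide (gE L 0 < x.1)) L[lev L] = true :=
    List.findIdx_getElem (w := h)
  have h2 : gE L (lev L) = (L[lev L]).1 := by
    unfold gE; rw [List.getD_eq_getElem _ _ h]
  rw [h2]
  simpa using h1

theorem lev_min {L : List (ℕ × ℕ)} {l : ℕ} (h : l < lev L) : gE L l ≤ gE L 0 := by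
  have h0 : lev L ≤ L.length := List.findIdx_le_length
  have h1 := List.not_of_lt_findIdx (p := fun x : ℕ × ℕ => decide (gE L 0 < x.1)) (xs := L) h
  have h2 : gE L l = (L[l]'(by omega)).1 := by
    unfold gE; rw [List.getD_eq_getElem _ _ (by omega)]
  rw [h2]
  simpa using h1

theorem lev_lt_of_amt {s : ℕ} {L : List (ℕ × ℕ)} (h : amt qU qW qV κ s L ≠ 0) :
    lev L < L.length := by
  by_contra h1
  push Not at h1
  apply h
  have h2 := Nat.findGreatest_le (P := fun r => Act qU qW qV κ s (gE L 0)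
    (gS L (lev L) + kk κ) r) (gE L (lev L) - gE L 0)
  rw [gE_out h1, Nat.zero_sub] at h2
  unfold amt
  rw [gE_out h1, Nat.zero_sub]
  exact Nat.le_zero.1 h2

theorem gE_stepL {s : ℕ} {L : List (ℕ × ℕ)} {l : ℕ} (hl : l < L.length) :
    gE (stepL qU qW qV κ s L) l = if amt qU qW qV κ s L = 0 then 2 * gE L l else
      if l + 1 = lev L then 2 * (gE L 0 + amt qU qW qV κ s L) else 2 * gE L l := by
  unfold stepL
  conv_lhs => unfold gE
  rw [getD_map_range, if_pos hl]
  split_ifs <;> rfl

theorem gS_stepL {s : ℕ} {L : List (ℕ × ℕ)} {l : ℕ} :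
    gS (stepL qU qW qV κ s L) l = if amt qU qW qV κ s L = 0 then gS L l else
      if l < lev L then s else gS L l := by
  unfold stepL
  conv_lhs => unfold gS
  rw [getD_map_range]
  by_cases hl : l < L.length
  · rw [if_pos hl]
    split_ifs <;> rfl
  · rw [if_neg hl]
    push Not at hl
    by_cases h : amt qU qW qV κ s L = 0
    · rw [if_pos h, gS_out hl]
    · have := lev_lt_of_amt qU qW qV κ h
      rw [if_neg h, if_neg (by omega), gS_out hl]

/-- the step of the strategy -/
theorem step_e (s : ℕ) :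
    ((∀ l, l ≤ TT κ → e qU qW qV κ (s + 1) l = 2 * e qU qW qV κ s l) ∧
      (∀ l, sg qU qW qV κ (s + 1) l = sg qU qW qV κ s l)) ∨
    ∃ j r, j < TT κ ∧ 0 < r ∧ (∀ l, l ≤ j → e qU qW qV κ s l ≤ e qU qW qV κ s 0) ∧
      e qU qW qV κ s 0 + r ≤ e qU qW qV κ s (j + 1) ∧
      Act qU qW qV κ s (e qU qW qV κ s 0) (sg qU qW qV κ s (j + 1) + kk κ) r ∧
      e qU qW qV κ (s + 1) j = 2 * (e qU qW qV κ s 0 + r) ∧
      (∀ l, l ≤ TT κ → l ≠ j → e qU qW qV κ (s + 1) l = 2 * e qU qW qV κ s l) ∧
      (∀ l, sg qU qW qV κ (s + 1) l = if l ≤ j then s else sg qU qW qV κ s l) := by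
  set L := ST qU qW qV κ s with hL
  have hlen : L.length = TT κ + 1 := len_ST qU qW qV κ s
  by_cases h : amt qU qW qV κ s L = 0
  · left
    constructor
    · intro l hl
      unfold e
      rw [ST_succ, ← hL, gE_stepL qU qW qV κ (by omega), if_pos h]
    · intro l
      unfold sg
      rw [ST_succ, ← hL, gS_stepL qU qW qV κ, if_pos h]
  · right
    have h1 := lev_lt_of_amt qU qW qV κ h
    have h2 := lev_spec h1
    have h3 : lev L ≠ 0 := by
      intro h4; rw [h4] at h2; exact lt_irrefl _ h2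
    obtain ⟨j, hj⟩ := Nat.exists_eq_succ_of_ne_zero h3
    have hj' : lev L = j + 1 := hj
    have hle := Nat.findGreatest_le (P := fun r => Act qU qW qV κ s (gE L 0)
      (gS L (lev L) + kk κ) r) (gE L (lev L) - gE L 0)
    have hact := Nat.findGreatest_of_ne_zero (P := fun r => Act qU qW qV κ s (gE L 0)
      (gS L (lev L) + kk κ) r) (n := gE L (lev L) - gE L 0) (m := amt qU qW qV κ s L) rfl h
    have hle' : amt qU qW qV κ s L ≤ gE L (lev L) - gE L 0 := hle
    refine ⟨j, amt qU qW qV κ s L, by omega, Nat.pos_of_ne_zero h, ?_, ?_, ?_, ?_, ?_, ?_⟩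
    · intro l hl
      have h7 : l < lev L := by omega
      exact lev_min h7
    · unfold e
      rw [← hL, ← hj']
      omega
    · unfold e sg
      rw [← hL, ← hj']
      exact hact
    · unfold e
      rw [ST_succ, ← hL, gE_stepL qU qW qV κ (by omega), if_neg h, if_pos (by omega)]
    · intro l hl hlj
      unfold e
      rw [ST_succ, ← hL, gE_stepL qU qW qV κ (by omega), if_neg h, if_neg (by omega)]
    · intro l
      unfold sg
      rw [ST_succ, ← hL, gS_stepL qU qW qV κ, if_neg h, hj']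
      by_cases h5 : l ≤ j
      · rw [if_pos h5, if_pos (by omega)]
      · rw [if_neg h5, if_neg (by omega)]

/-- when the strategy can move, it moves as much as possible -/
theorem act_e (s j r : ℕ) (hj : j < TT κ)
    (h0 : ∀ l, l ≤ j → e qU qW qV κ s l ≤ e qU qW qV κ s 0)
    (h1 : e qU qW qV κ s 0 < e qU qW qV κ s (j + 1)) (hr : 0 < r)
    (hr1 : e qU qW qV κ s 0 + r ≤ e qU qW qV κ s (j + 1))
    (hA : Act qU qW qV κ s (e qU qW qV κ s 0) (sg qU qW qV κ s (j + 1) + kk κ) r) :
    2 * (e qU qW qV κ s 0 + r) ≤ e qU qW qV κ (s + 1) j := by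
  set L := ST qU qW qV κ s with hL
  have hlen : L.length = TT κ + 1 := len_ST qU qW qV κ s
  have hlev : lev L = j + 1 := by
    have h2 : lev L ≤ j + 1 := by
      by_contra h3
      push Not at h3
      have h4 : gE L (j + 1) ≤ gE L 0 := lev_min h3
      unfold e at h1
      rw [← hL] at h1
      omega
    by_contra h3
    have h4 : lev L ≤ j := by omega
    have h5 := lev_spec (L := L) (by omega)
    have h6 := h0 _ h4
    unfold e at h6
    rw [← hL] at h6
    omega
  have h2 : r ≤ amt qU qW qV κ s L := by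
    unfold amt
    refine Nat.le_findGreatest ?_ ?_
    · unfold e at hr1
      rw [← hL] at hr1
      rw [hlev]; omega
    · unfold e sg at hA
      rw [← hL] at hA
      rw [hlev]; exact hA
  unfold e
  rw [ST_succ, ← hL, gE_stepL qU qW qV κ (by omega), if_neg (by omega), if_pos (by omega)]
  omega

theorem e_mono_l (s : ℕ) : ∀ l, l < TT κ → e qU qW qV κ s l ≤ e qU qW qV κ s (l + 1) := by
  induction s with
  | zero =>
    intro l hl
    rw [e_zero, e_zero, if_neg (by omega)]
    exact Nat.zero_le _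
  | succ s ih =>
    intro l hl
    rcases step_e qU qW qV κ s with ⟨h, _⟩ | ⟨j, r, hj, hr, h0, hle, hA, hj1, hne, _⟩
    · rw [h l (by omega), h (l + 1) (by omega)]
      have := ih l hl
      omega
    · by_cases h1 : l = j
      · subst h1
        rw [hj1, hne (l + 1) (by omega) (by omega)]; omega
      · by_cases h2 : l + 1 = j
        · rw [h2, hj1, hne l (by omega) h1]
          have := h0 l (by omega)
          omega
        · rw [hne l (by omega) h1, hne (l + 1) (by omega) h2]
          have := ih l hl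
          omega

theorem e_zero_le (s : ℕ) : ∀ l, l ≤ TT κ → e qU qW qV κ s 0 ≤ e qU qW qV κ s l := by
  intro l
  induction l with
  | zero => intro _; exact le_rfl
  | succ l ih => intro h; exact (ih (by omega)).trans (e_mono_l qU qW qV κ s l (by omega))

theorem e_top (s : ℕ) : e qU qW qV κ s (TT κ) = 2 ^ s := by
  induction s with
  | zero => rw [e_zero, if_pos rfl]; rfl
  | succ s ih =>
    rcases step_e qU qW qV κ s with ⟨h, _⟩ | ⟨j, r, hj, hr, h0, hle, hA, hj1, hne, _⟩
    · rw [h _ le_rfl, ih, pow_succ]; ring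
    · rw [hne _ le_rfl (by omega), ih, pow_succ]; ring

theorem e_le (s : ℕ) : e qU qW qV κ s 0 ≤ 2 ^ s := by
  rw [← e_top qU qW qV κ s]; exact e_zero_le qU qW qV κ s _ le_rfl

theorem e_double (s : ℕ) : 2 * e qU qW qV κ s 0 ≤ e qU qW qV κ (s + 1) 0 := by
  rcases step_e qU qW qV κ s with ⟨h, _⟩ | ⟨j, r, hj, hr, h0, hle, hA, hj1, hne, _⟩
  · rw [h 0 (Nat.zero_le _)]
  · by_cases h1 : 0 = j
    · subst h1; rw [hj1]; omega
    · rw [hne 0 (Nat.zero_le _) h1]

end Pool.Agent.H561R3.Om
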