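import Mathlib
import Pool.Agent.H561R3.Om.Reach
import Pool.Agent.H561R3.Om.Steps
import Pool.Agent.H561R3.Om.Meas

set_option autoImplicit false

namespace Pool.Agent.H561R3.Om

open MeasureTheory Encodable Pool.Agent.H561R3 Filter Topology

open Classical

theorem nodup_upTo (b : ℕ) : (upTo b).Nodup := by
  unfold upTo
  rw [List.nodup_flatMap]
  refine ⟨fun x _ => nodup_strs x, ?_⟩
  refine List.Pairwise.imp ?_ List.nodup_range
  intro a b hab
  simp only [Function.onFun, List.Disjoint]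
  intro c h1 h2
  rw [mem_strs] at h1 h2
  exact hab (h1.symm.trans h2)

section

variable (qU : Str × Str → ℕ → Prop) (qW : Str → ℕ → Prop) (qV : ℕ × IC → ℕ → Prop) (κ : Str)

noncomputable def BB (s : ℕ) : Finset Str := (upTo s).toFinset.filter (bornP qU κ s)
noncomputable def GG (s : ℕ) : Finset Str := (upTo s).toFinset.filter (goneP qU qW κ s)

theorem mem_BB {s : ℕ} {p : Str} : p ∈ BB qU κ s ↔ bornP qU κ s p := by
  unfold BB
  rw [Finset.mem_filter, List.mem_toFinset, mem_upTo]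
  exact ⟨fun h => h.2, fun h => ⟨h.1, h⟩⟩

theorem mem_GG {s : ℕ} {p : Str} : p ∈ GG qU qW κ s ↔ goneP qU qW κ s p := by
  unfold GG
  rw [Finset.mem_filter, List.mem_toFinset, mem_upTo]
  exact ⟨fun h => h.2, fun h => ⟨h.1.1, h⟩⟩

theorem GG_sub (s : ℕ) : GG qU qW κ s ⊆ BB qU κ s := by
  intro p hp
  rw [mem_GG] at hp
  rw [mem_BB]
  exact hp.1

theorem sum_live (s : ℕ) : ∑ p ∈ BB qU κ s \ GG qU qW κ s, (1 / 2 : ℝ) ^ p.length =
    (nb qU qW κ s : ℝ) / 2 ^ s := by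
  have h1 : nb qU qW κ s = ∑ p ∈ BB qU κ s \ GG qU qW κ s, 2 ^ (s - p.length) := by
    unfold nb
    rw [← List.sum_toFinset _ (nodup_upTo s), ← Finset.sum_filter]
    refine Finset.sum_congr ?_ fun _ _ => rfl
    ext p
    rw [Finset.mem_filter, List.mem_toFinset, mem_upTo, Finset.mem_sdiff, mem_BB, mem_GG]
    exact ⟨fun h => h.2, fun h => ⟨h.1.1, h⟩⟩
  rw [h1]
  push_cast
  rw [Finset.sum_div]
  refine Finset.sum_congr rfl fun p hp => ?_
  rw [Finset.mem_sdiff, mem_BB] at hp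
  rw [pow_sub₀ _ (by norm_num) hp.1.1, one_div, inv_pow]
  have : (2 : ℝ) ^ s ≠ 0 := by positivity
  field_simp

/-- the scale -/
noncomputable def FF (s l : ℕ) : ℝ := (e qU qW qV κ s l : ℝ) / 2 ^ (s + κ.length)

theorem NN_eq (s : ℕ) : FF qU qW qV κ s 0 + ∑ p ∈ BB qU κ s \ GG qU qW κ s,
    (1 / 2 : ℝ) ^ p.length = (NN qU qW κ s (e qU qW qV κ s 0) : ℝ) / 2 ^ (s + κ.length) := by
  rw [sum_live]
  unfold FF NN
  push_cast
  rw [pow_add]
  have h1 : (2 : ℝ) ^ s ≠ 0 := by positivity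
  have h2 : (2 : ℝ) ^ κ.length ≠ 0 := by positivity
  field_simp
  ring

theorem rat_lt (a a' d N w : ℕ) : ratOf (a, a', d) < (N : ℝ) / 2 ^ w ↔
    a * 2 ^ w < N * (d + 1) + a' * 2 ^ w := by
  unfold ratOf
  simp only
  rw [div_lt_div_iff₀ (by positivity) (by positivity), sub_mul, sub_lt_iff_lt_add]
  exact_mod_cast Iff.rfl

theorem le_rat (b b' d M w : ℕ) : (M : ℝ) / 2 ^ w ≤ ratOf (b, b', d) ↔
    M * (d + 1) + b' * 2 ^ w ≤ b * 2 ^ w := by
  unfold ratOf
  simp only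
  rw [div_le_div_iff₀ (by positivity) (by positivity), sub_mul, le_sub_iff_add_le]
  exact_mod_cast Iff.rfl

theorem Act_iff (s e0 c r : ℕ) : Act qU qW qV κ s e0 c r ↔ ∃ t ∈ cand IC s, qV (c, t) s ∧
    ratOf t.1 < (NN qU qW κ s e0 : ℝ) / 2 ^ (s + κ.length) ∧
    (NN qU qW κ s e0 : ℝ) / 2 ^ (s + κ.length) + (r : ℝ) / 2 ^ (s + κ.length) ≤ ratOf t.2 := by
  unfold Act
  refine exists_congr fun t => and_congr_right fun _ => and_congr_right fun _ => ?_
  obtain ⟨⟨a, a', d⟩, ⟨b, b', d'⟩⟩ := t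
  simp only
  rw [rat_lt, ← add_div]
  have h := le_rat b b' d' (NN qU qW κ s e0 + r) (s + κ.length)
  push_cast at h
  rw [h]

variable {qU qW qV}
variable {U : List Bool →. List Bool} {X : Set (List Bool)} {V : ℕ → Set IC}
  (hUm : ∀ a m n, m ≤ n → qU a m → qU a n) (hUe : ∀ p x, x ∈ U p ↔ ∃ n, qU (p, x) n)
  (hWm : ∀ a m n, m ≤ n → qW a m → qW a n)
  (hVe : ∀ c t, t ∈ V c ↔ ∃ n, qV (c, t) n)
  (hVol : ∀ n, volume (openOf (V n)) ≤ ENNReal.ofReal ((1 / 2 : ℝ) ^ n))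
  (hpf : ∀ p q : List Bool, (U p).Dom → (U q).Dom → p <+: q → p = q)

include hUm in
theorem BB_mono : Monotone (BB qU κ) := by
  intro s t h p hp
  rw [mem_BB] at hp ⊢
  obtain ⟨h1, h2, x, hx, h3⟩ := hp
  exact ⟨h1.trans h, h2, x, cand_mono h hx, hUm _ _ _ h h3⟩

include hUm hWm in
theorem GG_mono : Monotone (GG qU qW κ) := by
  intro s t h p hp
  rw [mem_GG] at hp ⊢
  obtain ⟨⟨h1, h2, y, hy, h3⟩, x, hx, h4, h5⟩ := hp
  exact ⟨⟨h1.trans h, h2, y, cand_mono h hy, hUm _ _ _ h h3⟩, x, cand_mono h hx,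
    hUm _ _ _ h h4, hWm _ _ _ h h5⟩

include hUe in
theorem BB_dom {s : ℕ} {p : Str} (hp : p ∈ BB qU κ s) : (U p).Dom := by
  rw [mem_BB] at hp
  obtain ⟨_, _, x, _, h3⟩ := hp
  exact Part.dom_iff_mem.2 ⟨x, (hUe p x).2 ⟨s, h3⟩⟩

/-- the run of the strategy -/
noncomputable def mkRun : Run Str where
  len := List.length
  B := BB qU κ
  G := GG qU qW κ
  v := vv V
  T := TT κ
  k := kk κ
  F := FF qU qW qV κ
  st := sg qU qW qV κ
  hB := BB_mono κ hUm
  hG := GG_mono κ hUm hWm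
  hGB := GG_sub qU qW κ
  hlen := fun s p hp => ((mem_BB qU κ).1 hp).1
  hK := fun s => kraft _ fun p hp q hq => hpf p q (BB_dom κ hUe hp) (BB_dom κ hUe hq)
  v_nonneg := vv_nonneg hVol
  v_le := vv_le hVol
  v_mono := vv_mono hVol
  v_lip := vv_lip hVol
  F_zero := fun l hl => by unfold FF; rw [e_zero, if_neg (by omega)]; simp
  F_T := by unfold FF; positivity
  T_pos := by unfold TT; positivity
  st_zero := sg_zero qU qW qV κ
  step := fun s => by
    have hd : ∀ a b : ℕ, a = 2 * b → (a : ℝ) / 2 ^ (s + 1 + κ.length) = (b : ℝ) / 2 ^ (s + κ.length) := by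
      intro a b h
      rw [h, show s + 1 + κ.length = (s + κ.length) + 1 by ring, pow_succ]
      push_cast
      have h2 : (2 : ℝ) ^ (s + κ.length) ≠ 0 := by positivity
      field_simp
    rcases step_e qU qW qV κ s with ⟨h, h'⟩ | ⟨j, r, hj, hr, h0, hle, hA, hj1, hne, hst⟩
    · left
      exact ⟨fun l hl => hd _ _ (h l hl), h'⟩
    · right
      refine ⟨j, (r : ℝ) / 2 ^ (s + κ.length), hj, by positivity, ?_, ?_, ?_, ?_, hst, ?_⟩
      · intro l hl
        have h1 := h0 l hl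
        have h2 := e_zero_le qU qW qV κ s l (by omega)
        unfold FF
        rw [le_antisymm h1 h2]
      · unfold FF
        rw [← add_div]
        have h1 : (0 : ℝ) < 2 ^ (s + κ.length) := by positivity
        rw [div_le_div_iff_of_pos_right h1]
        exact_mod_cast hle
      · unfold FF
        rw [hd _ _ hj1, ← add_div]
        push_cast
        rfl
      · intro l hl hlj
        exact hd _ _ (hne l hl hlj)
      · rw [NN_eq]
        obtain ⟨t, ht, h1, h2, h3⟩ := (Act_iff qU qW qV κ _ _ _ _).1 hA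
        exact vv_grow hVol _ _ _ (by positivity) ((hVe _ _).2 ⟨s, h1⟩) h2 h3

theorem act_lower {c : ℕ} {α : ℝ} (hVm : ∀ a m n, m ≤ n → qV a m → qV a n)
    (hlim : Tendsto (fun s => FF qU qW qV κ s 0 + ∑ p ∈ BB qU κ s \ GG qU qW κ s,
      (1 / 2 : ℝ) ^ p.length) atTop (𝓝 α)) (hα : α ∈ openOf (V c))
    (hVe : ∀ c t, t ∈ V c ↔ ∃ n, qV (c, t) n) :
    ∃ θ > (0 : ℝ), ∃ s0, ∀ s, s0 ≤ s → ∀ j, j < TT κ →
      (∀ l, l ≤ j → FF qU qW qV κ s l = FF qU qW qV κ s 0) →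
      FF qU qW qV κ s 0 < FF qU qW qV κ s (j + 1) → sg qU qW qV κ s (j + 1) + kk κ = c →
      min (FF qU qW qV κ s (j + 1)) (FF qU qW qV κ s 0 + θ) ≤ FF qU qW qV κ (s + 1) j := by
  obtain ⟨t, ht, ha, hb⟩ := hα
  obtain ⟨n0, hn0⟩ := (hVe c t).1 ht
  set δ := ratOf t.2 - α with hδ
  have hδ0 : 0 < δ := by rw [hδ]; linarith
  have e1 := hlim.eventually (lt_mem_nhds ha)
  have e2 := hlim.eventually (gt_mem_nhds (show α < α + δ / 2 by linarith))
  have e3 : Tendsto (fun s : ℕ => (1 / 2 : ℝ) ^ s) atTop (𝓝 0) :=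
    tendsto_pow_atTop_nhds_zero_of_lt_one (by norm_num) (by norm_num)
  have e4 := e3.eventually (gt_mem_nhds (show (0 : ℝ) < δ / 4 by linarith))
  obtain ⟨s1, hs1⟩ := eventually_atTop.1 (e1.and (e2.and e4))
  refine ⟨δ / 4, by linarith, max s1 (max n0 (encode t + 1)), ?_⟩
  intro s hs j hj h0 h1 hc
  have hs1' : s1 ≤ s := le_trans (le_max_left _ _) hs
  have hs2' : n0 ≤ s := le_trans (le_trans (le_max_left _ _) (le_max_right _ _)) hs
  have hs3' : encode t < s :=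
    lt_of_lt_of_le (Nat.lt_succ_self _) (le_trans (le_trans (le_max_right _ _) (le_max_right _ _)) hs)
  obtain ⟨f1, f2, f3⟩ := hs1 s hs1'
  have hp : (0 : ℝ) < 2 ^ (s + κ.length) := by positivity
  have hu : 1 / (2 : ℝ) ^ (s + κ.length) < δ / 4 := by
    refine lt_of_le_of_lt ?_ f3
    rw [one_div, ← inv_pow, one_div]
    exact pow_le_pow_of_le_one (by norm_num) (by norm_num) (by omega)
  have h1' : e qU qW qV κ s 0 < e qU qW qV κ s (j + 1) := by
    unfold FF at h1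
    rw [div_lt_div_iff_of_pos_right hp] at h1
    exact_mod_cast h1
  have h0' : ∀ l, l ≤ j → e qU qW qV κ s l ≤ e qU qW qV κ s 0 := by
    intro l hl
    have h2 := h0 l hl
    unfold FF at h2
    rw [div_left_inj' hp.ne'] at h2
    exact_mod_cast h2.le
  set m := ⌊(δ / 2) * 2 ^ (s + κ.length)⌋₊ with hm
  have hm1 : (m : ℝ) ≤ (δ / 2) * 2 ^ (s + κ.length) := Nat.floor_le (by positivity)
  have hm2 : (δ / 2) * 2 ^ (s + κ.length) < m + 1 := Nat.lt_floor_add_one _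
  have hu' : 1 < δ / 4 * 2 ^ (s + κ.length) := by
    rw [div_lt_iff₀ hp] at hu; exact hu
  have hm3 : (δ / 4) * 2 ^ (s + κ.length) ≤ m := by nlinarith
  have hm0 : 0 < m := by
    have : (0 : ℝ) < m := by linarith
    exact_mod_cast this
  set r := min m (e qU qW qV κ s (j + 1) - e qU qW qV κ s 0) with hr
  have hr0 : 0 < r := lt_min hm0 (by omega)
  have hr1 : e qU qW qV κ s 0 + r ≤ e qU qW qV κ s (j + 1) := by
    have := min_le_right m (e qU qW qV κ s (j + 1) - e qU qW qV κ s 0)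
    omega
  have hrm : (r : ℝ) ≤ m := by exact_mod_cast min_le_left _ _
  have hA : Act qU qW qV κ s (e qU qW qV κ s 0) (sg qU qW qV κ s (j + 1) + kk κ) r := by
    rw [Act_iff, hc]
    refine ⟨t, mem_cand_of_encode hs3', hVm _ _ _ hs2' hn0, ?_, ?_⟩
    · rw [← NN_eq]; exact f1
    · rw [← NN_eq]
      have h5 : (r : ℝ) / 2 ^ (s + κ.length) ≤ δ / 2 := by
        rw [div_le_iff₀ hp]; linarith
      linarith
  have h6 := act_e qU qW qV κ s j r hj h0' h1' hr0 hr1 hA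
  have h7 : ((e qU qW qV κ s 0 : ℝ) + r) / 2 ^ (s + κ.length) ≤ FF qU qW qV κ (s + 1) j := by
    unfold FF
    rw [show s + 1 + κ.length = (s + κ.length) + 1 by ring, pow_succ,
      div_le_div_iff₀ hp (by positivity)]
    have h8 : (2 : ℝ) * ((e qU qW qV κ s 0 : ℝ) + r) ≤ e qU qW qV κ (s + 1) j := by exact_mod_cast h6
    nlinarith
  refine le_trans ?_ h7
  rcases min_choice m (e qU qW qV κ s (j + 1) - e qU qW qV κ s 0) with h9 | h9
  · refine (min_le_right _ _).trans ?_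
    unfold FF
    rw [add_div, hr, h9]
    have : δ / 4 ≤ (m : ℝ) / 2 ^ (s + κ.length) := by
      rw [le_div_iff₀ hp]; exact hm3
    linarith
  · refine (min_le_left _ _).trans ?_
    unfold FF
    rw [div_le_div_iff_of_pos_right hp, hr, h9]
    have : e qU qW qV κ s (j + 1) ≤ e qU qW qV κ s 0 +
      (e qU qW qV κ s (j + 1) - e qU qW qV κ s 0) := by omega
    exact_mod_cast this

include hUm hUe hWm hVe hVol hpf in
/-- the contradiction -/
theorem contra {α : ℝ} (hVm : ∀ a m n, m ≤ n → qV a m → qV a n)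
    (hlim : Tendsto (fun s => FF qU qW qV κ s 0 + ∑ p ∈ BB qU κ s \ GG qU qW κ s,
      (1 / 2 : ℝ) ^ p.length) atTop (𝓝 α)) (hα : ∀ c, α ∈ openOf (V c)) : False := by
  set R := mkRun κ hUm hUe hWm hVe hVol hpf with hR
  obtain ⟨s, hs⟩ := R.reach (fun c => act_lower κ hVm hlim (hα c) hVe)
  have hb := R.bound s
  have h1 : R.F s 0 = 1 / 2 ^ κ.length := by
    rw [hs]
    show FF qU qW qV κ s (TT κ) = _
    unfold FF
    rw [e_top, pow_add]
    push_cast
    have : (2 : ℝ) ^ s ≠ 0 := by positivity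
    have : (2 : ℝ) ^ κ.length ≠ 0 := by positivity
    field_simp
  have h2 : (R.T : ℝ) = 2 * 2 ^ κ.length := by
    show ((TT κ : ℕ) : ℝ) = _
    unfold TT
    push_cast
    rw [pow_succ]; ring
  have h3 : (1 / 2 : ℝ) ^ R.k = 1 / 2 ^ κ.length * (1 / 8) := by
    show (1 / 2 : ℝ) ^ (kk κ) = _
    unfold kk
    rw [pow_add, one_div_pow]
    norm_num
  rw [h1, h2, h3] at hb
  have h4 : (2 : ℝ) ^ κ.length ≠ 0 := by positivity
  have h5 : (2 : ℝ) * 2 ^ κ.length * (1 / 2 ^ κ.length) = 2 := by field_simp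
  have h6 : 3 * ((2 : ℝ) * 2 ^ κ.length * (1 / 2 ^ κ.length * (1 / 8))) = 3 / 4 := by
    field_simp; norm_num
  rw [h5, h6] at hb
  norm_num at hb

end

end Pool.Agent.H561R3.Om
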