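import Mathlib
import Pool.Agent.H561R3.Om.MkRun

set_option autoImplicit false

namespace Pool.Agent.H561R3.Om

open MeasureTheory Encodable Pool.Agent.Helper227 Pool.Agent.H561R3 Filter Topology

open Classical

/-- value of a string read as a binary number -/
def val (q : Str) : ℕ := q.foldl (fun v b => 2 * v + (if b = true then 1 else 0)) 0

theorem foldl_val (q : Str) (v : ℕ) :
    q.foldl (fun v b => 2 * v + (if b = true then 1 else 0)) v = v * 2 ^ q.length + val q := by
  induction q generalizing v with
  | nil => simp [val]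
  | cons b q ih =>
    unfold val
    rw [List.foldl_cons, List.foldl_cons, ih, ih, List.length_cons, pow_succ]
    ring

theorem val_append (q r : Str) : val (q ++ r) = val q * 2 ^ r.length + val r := by
  conv_lhs => unfold val
  rw [List.foldl_append, foldl_val]
  rfl

theorem val_lt (q : Str) : val q < 2 ^ q.length := by
  induction q with
  | nil => simp [val]
  | cons b q ih =>
    unfold val
    rw [List.foldl_cons, foldl_val, List.length_cons, pow_succ]
    split_ifs <;> omega

theorem sum_val (s : ℕ) (g : ℕ → ℕ) : ∑ x ∈ FS s, g (val x) = ∑ v ∈ Finset.range (2 ^ s), g v := by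
  induction s generalizing g with
  | zero =>
    have h0 : FS 0 = {[]} := by
      ext x; rw [mem_FS]; simp
    rw [h0]; simp [val]
  | succ s ih =>
    rw [sum_FS_succ]
    have h1 : ∀ x : Str, g (val (x ++ [false])) + g (val (x ++ [true])) =
        (fun v => g (2 * v) + g (2 * v + 1)) (val x) := by
      intro x
      simp only [val_append]
      simp [val, mul_comm]
    rw [Finset.sum_congr rfl fun x _ => h1 x, ih (fun v => g (2 * v) + g (2 * v + 1))]
    have h2 : ∀ n : ℕ, ∑ v ∈ Finset.range n, (g (2 * v) + g (2 * v + 1)) =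
        ∑ v ∈ Finset.range (2 * n), g v := by
      intro n
      induction n with
      | zero => simp
      | succ n ih' =>
        rw [Finset.sum_range_succ, ih', show 2 * (n + 1) = 2 * n + 1 + 1 by ring,
          Finset.sum_range_succ, Finset.sum_range_succ]
        ring
    rw [h2, pow_succ, mul_comm]

/-- self-delimiting code of a natural number -/
def code (n : ℕ) : Str := List.replicate n true ++ [false]

theorem code_succ (n : ℕ) : code (n + 1) = true :: code n := by
  unfold code
  rw [List.replicate_succ]; rfl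

theorem findIdx_code (n : ℕ) (q : Str) : (code n ++ q).findIdx (fun b => !b) = n := by
  induction n with
  | zero => simp [code, List.findIdx_cons]
  | succ n ih => rw [code_succ, List.cons_append, List.findIdx_cons]; simp [ih]

theorem length_code (n : ℕ) : (code n).length = n + 1 := by simp [code]

theorem drop_code (n : ℕ) (q : Str) : (code n ++ q).drop (n + 1) = q := by
  rw [← length_code n, List.drop_left]

theorem split_code (p : Str) (h : p.findIdx (fun b => !b) < p.length) :
    p = code (p.findIdx (fun b => !b)) ++ p.drop (p.findIdx (fun b => !b) + 1) := by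
  induction p with
  | nil => simp at h
  | cons b p ih =>
    cases b with
    | false => simp [List.findIdx_cons, code]
    | true =>
      have h1 : (true :: p).findIdx (fun b => !b) = p.findIdx (fun b => !b) + 1 := by
        rw [List.findIdx_cons]; simp
      rw [h1] at h ⊢
      rw [code_succ, List.cons_append, List.drop_succ_cons]
      congr 1
      exact ih (by simpa using h)

theorem code_prefix (n m : ℕ) (q r : Str) (h : code n ++ q <+: code m ++ r) :
    n = m ∧ q <+: r := by
  induction n generalizing m with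
  | zero =>
    cases m with
    | zero =>
      refine ⟨rfl, ?_⟩
      simpa [code] using h
    | succ m => simp [code, List.replicate_succ] at h
  | succ n ih =>
    cases m with
    | zero => simp [code, List.replicate_succ] at h
    | succ m =>
      rw [code_succ, code_succ, List.cons_append, List.cons_append, List.cons_prefix_cons] at h
      obtain ⟨h1, h2⟩ := ih m h.2
      exact ⟨by rw [h1], h2⟩

section mach

variable (qU : Str × Str → ℕ → Prop) (qW : Str → ℕ → Prop) (qV : ℕ × IC → ℕ → Prop)

/-- the strings used by the strategy in the cone of `κ` -/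
def inD (κ q : Str) : Prop :=
  e qU qW qV κ q.length 0 ≤ val q ∧ 2 * val q < e qU qW qV κ (q.length + 1) 0

theorem e_even (κ : Str) (s : ℕ) : ∃ b, e qU qW qV κ (s + 1) 0 = 2 * b ∧
    e qU qW qV κ s 0 ≤ b ∧ b ≤ 2 ^ s := by
  have h1 : ∃ b, e qU qW qV κ (s + 1) 0 = 2 * b := by
    rcases step_e qU qW qV κ s with ⟨h, _⟩ | ⟨j, r, hj, hr, h0, hle, hA, hj1, hne, _⟩
    · exact ⟨_, h 0 (Nat.zero_le _)⟩
    · by_cases h1 : 0 = j
      · subst h1; exact ⟨_, hj1⟩
      · exact ⟨_, hne 0 (Nat.zero_le _) h1⟩
  obtain ⟨b, hb⟩ := h1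
  refine ⟨b, hb, ?_, ?_⟩
  · have := e_double qU qW qV κ s
    omega
  · have := e_le qU qW qV κ (s + 1)
    rw [pow_succ] at this
    omega

theorem e_pow (κ : Str) (s m : ℕ) : 2 ^ m * e qU qW qV κ s 0 ≤ e qU qW qV κ (s + m) 0 := by
  induction m with
  | zero => simp
  | succ m ih =>
    have := e_double qU qW qV κ (s + m)
    rw [← add_assoc, pow_succ]
    nlinarith

theorem inD_prefix {κ q r : Str} (hq : inD qU qW qV κ q) (hr : inD qU qW qV κ r)
    (h : q <+: r) : q = r := by
  obtain ⟨y, rfl⟩ := h
  cases y with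
  | nil => simp
  | cons a y =>
    exfalso
    obtain ⟨b, hb, _, _⟩ := e_even qU qW qV κ q.length
    have h1 := hq.2
    have h2 := hr.1
    rw [val_append, List.length_append, List.length_cons] at h2
    have h3 := e_pow qU qW qV κ (q.length + 1) y.length
    rw [show q.length + (y.length + 1) = q.length + 1 + y.length by ring] at h2
    have h4 := val_lt (a :: y)
    rw [List.length_cons, pow_succ] at h4
    rw [hb] at h1 h3
    have h5 : val q + 1 ≤ b := by omega
    have h6 : (val q + 1) * (2 ^ y.length * 2) ≤ b * (2 ^ y.length * 2) :=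
      Nat.mul_le_mul_right _ h5
    rw [pow_succ] at h2
    nlinarith

/-- the strings of the strategy of length below `s` -/
noncomputable def DD (κ : Str) : ℕ → Finset Str
  | 0 => ∅
  | s + 1 => DD κ s ∪ (FS s).filter (inD qU qW qV κ)

theorem mem_DD {κ : Str} {s : ℕ} {q : Str} : q ∈ DD qU qW qV κ s ↔
    q.length < s ∧ inD qU qW qV κ q := by
  induction s with
  | zero => simp [DD]
  | succ s ih =>
    rw [DD, Finset.mem_union, ih, Finset.mem_filter, mem_FS]
    constructor
    · rintro (⟨h1, h2⟩ | ⟨h1, h2⟩)
      · exact ⟨by omega, h2⟩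
      · exact ⟨by omega, h2⟩
    · rintro ⟨h1, h2⟩
      by_cases h3 : q.length = s
      · right; exact ⟨h3, h2⟩
      · left; exact ⟨by omega, h2⟩

theorem card_inD (κ : Str) (s b : ℕ) (hb : e qU qW qV κ (s + 1) 0 = 2 * b)
    (h1 : e qU qW qV κ s 0 ≤ b) (h2 : b ≤ 2 ^ s) :
    ((FS s).filter (inD qU qW qV κ)).card = b - e qU qW qV κ s 0 := by
  rw [Finset.card_filter]
  have h3 : ∀ x ∈ FS s, (if inD qU qW qV κ x then 1 else 0) =
      (fun v => if e qU qW qV κ s 0 ≤ v ∧ v < b then 1 else 0) (val x) := by
    intro x hx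
    rw [mem_FS] at hx
    simp only
    refine if_congr ?_ rfl rfl
    unfold inD
    rw [hx, hb]
    constructor <;> rintro ⟨h, h'⟩ <;> exact ⟨h, by omega⟩
  rw [Finset.sum_congr rfl h3, sum_val s
    (fun v => if e qU qW qV κ s 0 ≤ v ∧ v < b then 1 else 0), ← Finset.card_filter]
  have h4 : (Finset.range (2 ^ s)).filter (fun v => e qU qW qV κ s 0 ≤ v ∧ v < b) =
      Finset.Ico (e qU qW qV κ s 0) b := by
    ext v
    rw [Finset.mem_filter, Finset.mem_range, Finset.mem_Ico]
    constructor
    · exact fun h => h.2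
    · exact fun h => ⟨by omega, h⟩
  rw [h4, Nat.card_Ico]

theorem sum_DD (κ : Str) (s : ℕ) : ∑ q ∈ DD qU qW qV κ s, (1 / 2 : ℝ) ^ q.length =
    (e qU qW qV κ s 0 : ℝ) / 2 ^ s := by
  induction s with
  | zero =>
    rw [e_zero, if_neg (by unfold TT; positivity)]
    simp [DD]
  | succ s ih =>
    obtain ⟨b, hb, h1, h2⟩ := e_even qU qW qV κ s
    rw [DD, Finset.sum_union, ih]
    · have h3 : ∑ q ∈ (FS s).filter (inD qU qW qV κ), (1 / 2 : ℝ) ^ q.length =
          ∑ q ∈ (FS s).filter (inD qU qW qV κ), (1 / 2 : ℝ) ^ s := by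
        refine Finset.sum_congr rfl fun q hq => ?_
        rw [Finset.mem_filter, mem_FS] at hq
        rw [hq.1]
      rw [h3, Finset.sum_const, card_inD qU qW qV κ s b hb h1 h2, hb, nsmul_eq_mul,
        Nat.cast_sub h1, pow_succ]
      push_cast
      have : (2 : ℝ) ^ s ≠ 0 := by positivity
      rw [one_div, inv_pow]
      field_simp
      ring
    · rw [Finset.disjoint_left]
      intro q hq hq'
      rw [mem_DD] at hq
      rw [Finset.mem_filter, mem_FS] at hq'
      omega

theorem sum_cone (κ : Str) (s : ℕ) :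
    ∑ p ∈ (DD qU qW qV κ s).image (κ ++ ·), (1 / 2 : ℝ) ^ p.length = FF qU qW qV κ s 0 := by
  rw [Finset.sum_image (fun x _ y _ h => List.append_cancel_left h)]
  have h1 : ∀ q ∈ DD qU qW qV κ s, (1 / 2 : ℝ) ^ (κ ++ q).length =
      (1 / 2 : ℝ) ^ κ.length * (1 / 2 : ℝ) ^ q.length := by
    intro q _
    rw [List.length_append, pow_add]
  rw [Finset.sum_congr rfl h1, ← Finset.mul_sum, sum_DD]
  unfold FF
  rw [pow_add, one_div_pow]
  have h2 : (2 : ℝ) ^ s ≠ 0 := by positivity
  have h3 : (2 : ℝ) ^ κ.length ≠ 0 := by positivity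
  field_simp

/-- the cone assigned to `n` -/
def kap (n : ℕ) : Str := ((decode n : Option Str).getD []) ++ code n

/-- domain of the machine -/
def domM (p : Str) : Prop := p.findIdx (fun b => !b) < p.length ∧
  inD qU qW qV (kap (p.findIdx (fun b => !b))) (p.drop (p.findIdx (fun b => !b) + 1))

theorem domM_code (n : ℕ) (q : Str) : domM qU qW qV (code n ++ q) ↔ inD qU qW qV (kap n) q := by
  unfold domM
  rw [findIdx_code, drop_code, List.length_append, length_code]
  exact ⟨fun h => h.2, fun h => ⟨by omega, h⟩⟩

theorem domM_split {p : Str} (h : domM qU qW qV p) : ∃ n q, p = code n ++ q ∧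
    inD qU qW qV (kap n) q := ⟨_, _, split_code p h.1, h.2⟩

/-- the machine -/
noncomputable def Mm (x0 : Str) (p : Str) : Part Str :=
  ((if domM qU qW qV p then some x0 else none : Option Str) : Part Str)

theorem mem_Mm {x0 p x : Str} : x ∈ Mm qU qW qV x0 p ↔ domM qU qW qV p ∧ x = x0 := by
  unfold Mm
  split_ifs with h <;> simp [h]

variable {qU qW qV}

theorem pr_val : Primrec val := by
  unfold val
  refine Primrec.list_foldl (f := fun q : Str => q) (g := fun _ => 0)
    (h := fun _ (x : ℕ × Bool) => 2 * x.1 + (if x.2 = true then 1 else 0)) Primrec.id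
    (Primrec.const 0) ?_
  refine Primrec.nat_add.comp (Primrec.nat_mul.comp (Primrec.const 2)
    (Primrec.fst.comp Primrec.snd)) ?_
  exact Primrec.ite (Primrec.eq.comp (Primrec.snd.comp Primrec.snd) (Primrec.const true))
    (Primrec.const 1) (Primrec.const 0)

theorem pr_code : Primrec code := by
  have h : Primrec fun n : ℕ => (List.range n).map (fun _ => true) ++ [false] :=
    Primrec.list_append.comp (Primrec.list_map Primrec.list_range (Primrec.const true).to₂)
      (Primrec.const [false])
  refine h.of_eq fun n => ?_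
  unfold code
  congr 1
  simp

theorem pr_kap : Primrec kap := by
  unfold kap
  exact Primrec.list_append.comp (Primrec.option_getD.comp Primrec.decode (Primrec.const []))
    pr_code

theorem pr_inD (hU : PrimrecRel qU) (hW : PrimrecRel qW) (hV : PrimrecRel qV) :
    PrimrecRel (inD qU qW qV) := by
  unfold inD
  have he : Primrec₂ fun (κ : Str) (s : ℕ) => e qU qW qV κ s 0 := by
    unfold e
    exact pr_gE (pr_ST hU hW hV) (Primrec.const 0)
  refine PrimrecPred.and ?_ ?_
  · exact Primrec.nat_le.comp (he.comp Primrec.fst (Primrec.list_length.comp Primrec.snd))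
      (pr_val.comp Primrec.snd)
  · exact Primrec.nat_lt.comp (Primrec.nat_mul.comp (Primrec.const 2) (pr_val.comp Primrec.snd))
      (he.comp Primrec.fst (Primrec.succ.comp (Primrec.list_length.comp Primrec.snd)))

theorem pr_domM (hU : PrimrecRel qU) (hW : PrimrecRel qW) (hV : PrimrecRel qV) :
    PrimrecPred (domM qU qW qV) := by
  unfold domM
  have hi : Primrec fun p : Str => p.findIdx (fun b => !b) :=
    Primrec.list_findIdx (f := fun p : Str => p) (p := fun _ b => !b) Primrec.id
      (Primrec.not.comp Primrec.snd).to₂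
  refine PrimrecPred.and ?_ ?_
  · exact Primrec.nat_lt.comp hi Primrec.list_length
  · exact (pr_inD hU hW hV).comp (pr_kap.comp hi)
      (Primrec.list_drop.comp (Primrec.succ.comp hi) Primrec.id)

theorem Mm_machine (hU : PrimrecRel qU) (hW : PrimrecRel qW) (hV : PrimrecRel qV) (x0 : Str) :
    PFMachine (Mm qU qW qV x0) := by
  constructor
  · unfold Mm
    refine Computable.ofOption (Primrec.to_comp ?_)
    exact Primrec.ite (pr_domM hU hW hV) (Primrec.const (some x0)) (Primrec.const none)
  · intro p q hp hq h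
    obtain ⟨x, hx⟩ := Part.dom_iff_mem.1 hp
    obtain ⟨y, hy⟩ := Part.dom_iff_mem.1 hq
    obtain ⟨n, p', rfl, hp'⟩ := domM_split qU qW qV ((mem_Mm qU qW qV).1 hx).1
    obtain ⟨m, q', rfl, hq'⟩ := domM_split qU qW qV ((mem_Mm qU qW qV).1 hy).1
    obtain ⟨h1, h2⟩ := code_prefix n m p' q' h
    subst h1
    rw [inD_prefix qU qW qV hp' hq' h2]

end mach

end Pool.Agent.H561R3.Om
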