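import Mathlib
import Pool.Agent.H561R3.Om.Mach

set_option autoImplicit false

namespace Pool.Agent.H561R3.Om

open MeasureTheory Encodable Pool.Agent.Helper227 Pool.Agent.H561R3 Filter Topology

open Classical

theorem s1_graph' {α β : Type*} [Primcodable α] [Primcodable β] {f : α →. β} (hf : Partrec f) :
    S1 fun x : α × β => x.2 ∈ f x.1 := by
  have h1 : Partrec fun x : α × β => (f x.1).bind fun y =>
      (if encode y = encode x.2 then Part.some () else Part.none) := by
    refine Partrec.bind (hf.comp Computable.fst) ?_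
    have h2 : PrimrecPred fun z : (α × β) × β => encode z.2 = encode z.1.2 :=
      Primrec.eq.comp (Primrec.encode.comp Primrec.snd)
        (Primrec.encode.comp (Primrec.snd.comp Primrec.fst))
    have h3 : Partrec fun z : (α × β) × β =>
        (cond (decide (encode z.2 = encode z.1.2)) (Part.some ())
          Part.none : Part Unit) :=
      Partrec.cond h2.decide.to_comp (Computable.const ()).partrec Partrec.none
    refine h3.of_eq fun z => ?_
    by_cases h : encode z.2 = encode z.1.2 <;> simp [h]
  refine (S1.of_re h1.dom_re).of_eq fun x => ?_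
  simp only [Part.bind_dom]
  constructor
  · rintro ⟨h, h2⟩
    by_cases h3 : encode ((f x.1).get h) = encode x.2
    · rw [← encode_injective h3]; exact Part.get_mem h
    · rw [if_neg h3] at h2
      exact h2.elim
  · intro h
    refine ⟨Part.dom_iff_mem.2 ⟨_, h⟩, ?_⟩
    have h3 : (f x.1).get (Part.dom_iff_mem.2 ⟨_, h⟩) = x.2 :=
      Part.get_eq_of_mem h _
    rw [h3, if_pos rfl]
    trivial

/-- The main theorem, for every machine that simulates each machine by adjoining some string. -/
theorem main_general (U : List Bool →. List Bool) (hU : PFMachine U)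
    (huniv : ∀ N : List Bool →. List Bool, PFMachine N → ∃ σ : List Bool, ∀ p, U (σ ++ p) = N p)
    (X : Set (List Bool)) (hX : REPred fun x => x ∉ X) (hpos : 0 < Omega U X) :
    MLRandomReal (Omega U X) := by
  intro V hV
  by_contra hcon
  push Not at hcon
  obtain ⟨qU, hqU, hUm, hUe'⟩ := s1_graph' hU.1
  obtain ⟨qW, hqW, hWm, hWe⟩ := S1.of_re hX
  obtain ⟨qV, hqV, hVm, hVe'⟩ := S1.of_re hV.1
  have hUe : ∀ p x, x ∈ U p ↔ ∃ n, qU (p, x) n := fun p x => hUe' (p, x)
  have hVe : ∀ c t, t ∈ V c ↔ ∃ n, qV (c, t) n := fun c t => hVe' (c, t)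
  -- an element of `X`
  obtain ⟨x0, hx0⟩ : ∃ x0, x0 ∈ X := by
    by_contra h
    push Not at h
    have h0 : Omega U X = 0 := by
      unfold Omega
      have h1 : {p : List Bool | ∃ x ∈ X, x ∈ U p} = ∅ := by
        ext p
        simp only [Set.mem_setOf_eq, Set.mem_empty_iff_false, iff_false]
        rintro ⟨x, hx, _⟩
        exact h x hx
      rw [h1]
      simp
    linarith
  obtain ⟨σ, hσ⟩ := huniv _ (Mm_machine hqU hqW hqV x0)
  set n := encode σ with hn
  set κ := σ ++ code n with hκ
  have hkap : kap n = κ := by
    unfold kap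
    rw [hn, encodek]; rfl
  have hcone : ∀ q x, x ∈ U (κ ++ q) ↔ inD qU qW qV κ q ∧ x = x0 := by
    intro q x
    rw [hκ, List.append_assoc, hσ, mem_Mm, domM_code, hkap]
  set L : ℕ → Finset Str := fun s => (BB qU κ s \ GG qU qW κ s) ∪
    (DD qU qW qV κ s).image (κ ++ ·) with hL
  have hsum : ∀ s, ∑ p ∈ L s, (1 / 2 : ℝ) ^ p.length = FF qU qW qV κ s 0 +
      ∑ p ∈ BB qU κ s \ GG qU qW κ s, (1 / 2 : ℝ) ^ p.length := by
    intro s
    rw [hL]
    simp only
    rw [Finset.sum_union, sum_cone, add_comm]
    rw [Finset.disjoint_left]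
    intro p hp hp'
    rw [Finset.mem_sdiff, mem_BB] at hp
    rw [Finset.mem_image] at hp'
    obtain ⟨q, _, rfl⟩ := hp'
    exact hp.1.2.1 (List.prefix_append _ _)
  have hlim : Tendsto (fun s => FF qU qW qV κ s 0 + ∑ p ∈ BB qU κ s \ GG qU qW κ s,
      (1 / 2 : ℝ) ^ p.length) atTop (𝓝 (Omega U X)) := by
    simp_rw [← hsum]
    unfold Omega
    refine tendsto_live (D := {p | (U p).Dom}) (fun p hp q hq => hU.2 p q hp hq) L _ ?_ ?_
    · intro s p hp
      rw [hL] at hp
      simp only [Finset.mem_union, Finset.mem_image] at hp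
      rcases hp with hp | ⟨q, hq, rfl⟩
      · exact BB_dom κ hUe (Finset.mem_sdiff.1 hp).1
      · rw [mem_DD] at hq
        exact Part.dom_iff_mem.2 ⟨x0, (hcone q x0).2 ⟨hq.2, rfl⟩⟩
    · intro p
      by_cases hp : κ <+: p
      · obtain ⟨q, rfl⟩ := hp
        filter_upwards [eventually_gt_atTop q.length] with s hs
        have h1 : κ ++ q ∈ L s ↔ inD qU qW qV κ q := by
          rw [hL]
          simp only [Finset.mem_union, Finset.mem_image]
          constructor
          · rintro (h | ⟨q', hq', h⟩)
            · rw [Finset.mem_sdiff, mem_BB] at h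
              exact absurd (List.prefix_append _ _) h.1.2.1
            · rw [List.append_cancel_left h] at hq'
              exact ((mem_DD qU qW qV).1 hq').2
          · intro h
            exact Or.inr ⟨q, (mem_DD qU qW qV).2 ⟨hs, h⟩, rfl⟩
        rw [h1]
        simp only [Set.mem_setOf_eq, hcone]
        exact ⟨fun h => ⟨x0, hx0, h, rfl⟩, fun ⟨_, _, h, _⟩ => h⟩
      · have h1 : ∀ s, p ∈ L s ↔ p ∈ BB qU κ s \ GG qU qW κ s := by
          intro s
          rw [hL]
          simp only [Finset.mem_union, Finset.mem_image]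
          constructor
          · rintro (h | ⟨q', _, rfl⟩)
            · exact h
            · exact absurd (List.prefix_append _ _) hp
          · exact Or.inl
        by_cases hd : (U p).Dom
        · obtain ⟨x, hx⟩ := Part.dom_iff_mem.1 hd
          obtain ⟨n0, hn0⟩ := (hUe p x).1 hx
          by_cases hxX : x ∈ X
          · filter_upwards [eventually_ge_atTop (max p.length (max n0 (encode x + 1)))] with s hs
            have hs1 : p.length ≤ s := le_trans (le_max_left _ _) hs
            have hs2 : n0 ≤ s := le_trans (le_trans (le_max_left _ _) (le_max_right _ _)) hs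
            have hs3 : encode x < s := lt_of_lt_of_le (Nat.lt_succ_self _)
              (le_trans (le_trans (le_max_right _ _) (le_max_right _ _)) hs)
            rw [h1 s, Finset.mem_sdiff, mem_BB, mem_GG]
            refine ⟨fun _ => ⟨x, hxX, hx⟩, fun _ => ⟨⟨hs1, hp, x, mem_cand_of_encode hs3,
              hUm _ _ _ hs2 hn0⟩, ?_⟩⟩
            rintro ⟨_, y, _, hy1, hy2⟩
            have hy : y ∈ U p := (hUe p y).2 ⟨s, hy1⟩
            rw [Part.mem_unique hy hx] at hy2
            exact (hWe x).2 ⟨s, hy2⟩ hxX
          · obtain ⟨n1, hn1⟩ := (hWe x).1 hxX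
            filter_upwards [eventually_ge_atTop (max p.length (max (max n0 n1) (encode x + 1)))]
              with s hs
            have hs1 : p.length ≤ s := le_trans (le_max_left _ _) hs
            have hs2 : max n0 n1 ≤ s :=
              le_trans (le_trans (le_max_left _ _) (le_max_right _ _)) hs
            have hs3 : encode x < s := lt_of_lt_of_le (Nat.lt_succ_self _)
              (le_trans (le_trans (le_max_right _ _) (le_max_right _ _)) hs)
            rw [h1 s, Finset.mem_sdiff, mem_BB, mem_GG]
            constructor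
            · rintro ⟨h2, h3⟩
              exact absurd ⟨h2, x, mem_cand_of_encode hs3,
                hUm _ _ _ (le_trans (le_max_left _ _) hs2) hn0,
                hWm _ _ _ (le_trans (le_max_right _ _) hs2) hn1⟩ h3
            · rintro ⟨y, hy1, hy2⟩
              rw [Part.mem_unique hy2 hx] at hy1
              exact absurd hy1 hxX
        · refine Eventually.of_forall fun s => ?_
          rw [h1 s]
          constructor
          · intro h
            exact absurd (BB_dom κ hUe (Finset.mem_sdiff.1 h).1) hd
          · rintro ⟨y, _, hy⟩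
            exact absurd (Part.dom_iff_mem.2 ⟨y, hy⟩) hd
  exact contra κ hUm hUe hWm hVe hV.2 (fun p q hp hq => hU.2 p q hp hq) hVm hlim hcon

end Pool.Agent.H561R3.Om
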